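import Pool.Agent.Lib.TPR.Defs
import Pool.Agent.Lib.HCM.TateG

/-!
# Project TateProducts, row TDBP: Pontryagin products of Hodge classes are balanced (helper94)
-/

set_option autoImplicit false

open Complex Pool.Agent.RAT Pool.Agent.HCM Pool.Agent.GG

namespace Pool.Agent.TPR.Dbp

noncomputable section

section count

variable {Y T P₁ P₂ : Type} [Finite P₁] [Finite P₂]

/-- The number of letters with the property `P`. -/
def cn (P : Y → Prop) (t : T → Y) : ℕ := {i | P (t i)}.ncard

theorem cn_perm (P : Y → Prop) (t : T → Y) (σ : Equiv.Perm T) : cn P (t ∘ σ) = cn P t := by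
  unfold cn
  have h1 : {i | P ((t ∘ σ) i)} = σ.symm '' {i | P (t i)} := by
    ext i
    constructor
    · intro hi
      exact ⟨σ i, hi, by simp⟩
    · rintro ⟨k, hk, rfl⟩
      simpa using hk
  rw [h1, Set.ncard_image_of_injective _ σ.symm.injective]

theorem cn_sum (P : Y → Prop) (e : P₁ ⊕ P₂ ≃ T) (t : T → Y) :
    cn P t = cn P (fun i => t (e (Sum.inl i))) + cn P (fun i => t (e (Sum.inr i))) := by
  classical
  have := Fintype.ofFinite P₁
  have := Fintype.ofFinite P₂
  have := Fintype.ofEquiv _ e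
  unfold cn
  simp only [Set.ncard_eq_toFinset_card']
  simp only [Set.toFinset_ofPred, Finset.card_filter]
  rw [← Equiv.sum_comp e, Fintype.sum_sum_type]

theorem cn_not [Finite T] (P : Y → Prop) (t : T → Y) :
    cn P t + cn (fun y => ¬ P y) t = Nat.card T := by
  unfold cn
  have h1 : {i | ¬ P (t i)} = {i | P (t i)}ᶜ := rfl
  rw [h1, Set.ncard_add_ncard_compl]

theorem cn_prod {R I : Type} [Finite R] [Finite I] (P : Y → Prop) (t : R × I → Y) :
    cn P t = ∑ᶠ r, cn P (fun i => t (r, i)) := by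
  classical
  have := Fintype.ofFinite R
  have := Fintype.ofFinite I
  unfold cn
  rw [finsum_eq_sum_of_fintype]
  simp only [Set.ncard_eq_toFinset_card']
  simp only [Set.toFinset_ofPred, Finset.card_filter]
  rw [Fintype.sum_prod_type]

theorem exists_of_alt {Y : Type} {N : ℕ} {f : (Fin N → Y) → ℂ} {t : Fin N → Y}
    (h : alt f t ≠ 0) : ∃ σ : Equiv.Perm (Fin N), f (t ∘ σ) ≠ 0 := by
  by_contra hc
  push Not at hc
  apply h
  unfold alt
  exact Finset.sum_eq_zero fun σ _ => by rw [hc, mul_zero]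

end count

section bal

variable {S Λ : Type} {M G : S → Type} [Fintype Λ] {ι : Type} {K : ι → Type} [∀ i, Field (K i)]

/-- the four properties of letters -/
def PA (v : Bool) (y : Lt M G K) : Prop := ∃ a, y = Sum.inl (a, v)

def PB (Φ : ∀ i, Set (K i →+* ℂ)) (y : Lt M G K) : Prop := ∃ q : Idx K, y = Sum.inr q ∧ q.2 ∈ Φ q.1

def PN (Φ : ∀ i, Set (K i →+* ℂ)) (y : Lt M G K) : Prop := ∃ q : Idx K, y = Sum.inr q ∧ q.2 ∉ Φ q.1

/-- balanced words -/
def Bal {T : Type} (Φ : ∀ i, Set (K i →+* ℂ)) (t : T → Lt M G K) : Prop :=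
  cn (PA true) t = cn (PA false) t ∧ cn (PB Φ) t = cn (PN Φ) t

theorem bal_perm {T : Type} (Φ : ∀ i, Set (K i →+* ℂ)) (t : T → Lt M G K) (σ : Equiv.Perm T)
    (h : Bal Φ (t ∘ σ)) : Bal Φ t := by
  unfold Bal at h ⊢
  simpa only [cn_perm] using h

theorem bal_sum {T P₁ P₂ : Type} [Finite P₁] [Finite P₂] (Φ : ∀ i, Set (K i →+* ℂ))
    (e : P₁ ⊕ P₂ ≃ T) (t : T → Lt M G K) (h₁ : Bal Φ fun i => t (e (Sum.inl i)))
    (h₂ : Bal Φ fun i => t (e (Sum.inr i))) : Bal Φ t := by
  unfold Bal at h₁ h₂ ⊢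
  refine ⟨?_, ?_⟩
  · rw [cn_sum _ e, cn_sum _ e, h₁.1, h₂.1]
  · rw [cn_sum _ e, cn_sum _ e, h₁.2, h₂.2]

theorem bal_prod {R I : Type} [Finite R] [Finite I] (Φ : ∀ i, Set (K i →+* ℂ))
    (t : R × I → Lt M G K) (h : ∀ r, Bal Φ fun i => t (r, i)) : Bal Φ t := by
  unfold Bal at h ⊢
  refine ⟨?_, ?_⟩
  · rw [cn_prod, cn_prod]
    exact finsum_congr fun r => (h r).1
  · rw [cn_prod, cn_prod]
    exact finsum_congr fun r => (h r).2

theorem cn_congr {Y T : Type} {P Q : Y → Prop} {t : T → Y} (h : ∀ i, P (t i) ↔ Q (t i)) :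
    cn P t = cn Q t := by
  unfold cn
  congr 1
  ext i
  exact h i

theorem cn_false {Y T : Type} {P : Y → Prop} {t : T → Y} (h : ∀ i, ¬ P (t i)) : cn P t = 0 := by
  unfold cn
  have h1 : {i | P (t i)} = ∅ := by
    ext i
    exact ⟨fun hi => h i hi, fun hi => absurd hi (Set.notMem_empty i)⟩
  rw [h1, Set.ncard_empty]

theorem bal_A {T : Type} [Finite T] (Φ : ∀ i, Set (K i →+* ℂ)) {j : ℕ} (hT : Nat.card T = 2 * j)
    {t : T → Lt M G K} (hA : ∀ i, ∃ a, t i = Sum.inl a) (hc : cntT Φ t = j) : Bal Φ t := by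
  have h1 : cn (PA true) t = j := by
    rw [← hc]
    refine cn_congr (Q := IsT Φ) fun i => ?_
    obtain ⟨a, ha⟩ := hA i
    rw [ha]
    constructor
    · rintro ⟨a', ha'⟩
      have := Sum.inl_injective ha'
      rw [this]
      rfl
    · intro h
      refine ⟨a.1, ?_⟩
      have h2 : a.2 = true := h
      rw [← h2]
  have h2 : cn (PA false) t = cn (fun y => ¬ PA true y) t := by
    refine cn_congr fun i => ?_
    obtain ⟨⟨a, v⟩, ha⟩ := hA i
    rw [ha]
    constructor
    · rintro ⟨a', ha'⟩ ⟨a'', ha''⟩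
      rw [ha'] at ha''
      have := Sum.inl_injective ha''
      simp at this
    · intro h
      refine ⟨a, ?_⟩
      cases v
      · rfl
      · exact absurd ⟨a, rfl⟩ h
  have h3 := cn_not (PA true) t
  refine ⟨by omega, ?_⟩
  rw [cn_false, cn_false]
  · rintro i ⟨q, hq, -⟩
    obtain ⟨a, ha⟩ := hA i
    rw [ha] at hq
    cases hq
  · rintro i ⟨q, hq, -⟩
    obtain ⟨a, ha⟩ := hA i
    rw [ha] at hq
    cases hq

theorem bal_B {T : Type} [Finite T] (Φ : ∀ i, Set (K i →+* ℂ)) {c : ℕ} (hT : Nat.card T = 2 * c)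
    {t : T → Lt M G K} (hB : ∀ i, ∃ q, t i = Sum.inr q) (hc : cn (PB Φ) t = c) : Bal Φ t := by
  have h2 : cn (PN Φ) t = cn (fun y => ¬ PB Φ y) t := by
    refine cn_congr fun i => ?_
    obtain ⟨q, hq⟩ := hB i
    rw [hq]
    constructor
    · rintro ⟨q', hq', h'⟩ ⟨q'', hq'', h''⟩
      rw [hq'] at hq''
      have := Sum.inr_injective hq''
      rw [this] at h'
      exact h' h''
    · intro h
      exact ⟨q, rfl, fun h' => h ⟨q, rfl, h'⟩⟩
  have h3 := cn_not (PB Φ) t
  refine ⟨?_, by omega⟩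
  rw [cn_false, cn_false]
  · rintro i ⟨a, ha⟩
    obtain ⟨q, hq⟩ := hB i
    rw [hq] at ha
    cases ha
  · rintro i ⟨a, ha⟩
    obtain ⟨q, hq⟩ := hB i
    rw [hq] at ha
    cases ha

/-- classes in `HA` live on the words in the letters of `A` -/
theorem HA_support {T : Type} [Fintype T] [DecidableEq T] (b : Λ → Crd M G → ℂ)
    {d : (T → Lt M G K) → ℂ} (hd : d ∈ HA K b T) {t : T → Lt M G K} (ht : d t ≠ 0) (i : T) :
    ∃ a, t i = Sum.inl a := by
  cases hi : t i with
  | inl a => exact ⟨a, rfl⟩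
  | inr q =>
    exfalso
    apply ht
    unfold HA at hd
    refine Submodule.span_induction (p := fun d _ => d t = 0) ?_ rfl ?_ ?_ hd
    · rintro _ ⟨x, rfl⟩
      unfold torX
      refine Matrix.det_eq_zero_of_row_eq_zero i fun c => ?_
      rw [Matrix.of_apply, hi]
      exact map_zero q.2
    · intro f g _ _ hf hg
      rw [Pi.add_apply, hf, hg, add_zero]
    · intro q' f _ hf
      rw [Pi.smul_apply, hf, smul_zero]

theorem extB_support {T : Type} {v : (T → Idx K) → ℂ} {t : T → Lt M G K}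
    (h : extB (M := M) (G := G) v t ≠ 0) :
    ∃ s : T → Idx K, (∀ i, t i = Sum.inr (s i)) ∧ v s ≠ 0 := by
  unfold extB at h
  split_ifs at h with h1
  · refine ⟨fun i => (t i).getRight (h1 i), fun i => ?_, h⟩
    exact (Sum.inr_getRight _ _).symm
  · exact absurd rfl h

/-- combinations of ball classes are Hodge classes -/
theorem ball_hodge {c : ℕ} {Φ : ∀ i, Set (K i →+* ℂ)} {v : (Two c → Idx K) → ℂ}
    (hv : IsBallQ Φ v) {s : Two c → Idx K} (hs : v s ≠ 0) :
    {a | (s a).2 ∈ Φ (s a).1}.ncard = c := by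
  by_contra hc
  apply hs
  have h1 : v ∈ Submodule.span ℂ (BallCl Φ) := by
    unfold IsBallQ at hv
    refine Submodule.span_induction (p := fun v _ => v ∈ Submodule.span ℂ (BallCl Φ)) ?_ ?_ ?_ ?_ hv
    · rintro _ ⟨-, v', hv', rfl⟩
      exact Submodule.smul_mem _ _ (Submodule.subset_span hv')
    · exact Submodule.zero_mem _
    · intro f g _ _ hf hg
      exact Submodule.add_mem _ hf hg
    · intro q f _ hf
      rw [← algebraMap_smul ℂ q f]
      exact Submodule.smul_mem _ _ hf
  exact isHodge_of_mem h1 s hc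

theorem bal_extB {c : ℕ} {Φ : ∀ i, Set (K i →+* ℂ)} {v : (Two c → Idx K) → ℂ}
    (hv : (c = 0 ∧ ∃ q : ℚ, ∀ t, v t = q) ∨ (0 < c ∧ IsBallQ Φ v)) {t : Two c → Lt M G K}
    (ht : extB (M := M) (G := G) v t ≠ 0) : Bal Φ t := by
  obtain ⟨s, hs, hs0⟩ := extB_support ht
  refine bal_B Φ (c := c) ?_ (fun i => ⟨s i, hs i⟩) ?_
  · rw [Nat.card_eq_fintype_card]
    simp [two_mul]
  · have h1 : cn (PB Φ) t = {a | (s a).2 ∈ Φ (s a).1}.ncard := by
      unfold cn
      congr 1
      ext a
      simp only [Set.mem_ofPred_eq, hs a]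
      constructor
      · rintro ⟨q, hq, h⟩
        have := Sum.inr_injective hq
        rw [this]
        exact h
      · intro h
        exact ⟨s a, rfl, h⟩
    rw [h1]
    rcases hv with ⟨rfl, -⟩ | ⟨-, hv⟩
    · have h2 : {a : Two 0 | (s a).2 ∈ Φ (s a).1} = ∅ := by
        ext a
        exact isEmptyElim a
      rw [h2, Set.ncard_empty]
    · exact ball_hodge hv hs0

/-- the words of a balanced word of even length have half of their letters of type `(1,0)` -/
theorem cntT_of_bal {n : ℕ} {Φ : ∀ i, Set (K i →+* ℂ)} {t : Fin (2 * n) → Lt M G K}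
    (h : Bal Φ t) : cntT Φ t = n := by
  have h1 : cntT Φ t = cn (PA true) t + cn (PB Φ) t := by
    unfold cntT cn
    rw [← Set.ncard_union_eq]
    · congr 1
      ext i
      simp only [Set.mem_ofPred_eq, Set.mem_union]
      cases hi : t i with
      | inl a =>
        constructor
        · intro h
          left
          refine ⟨a.1, ?_⟩
          have h2 : a.2 = true := h
          rw [← h2]
        · rintro (⟨a', ha'⟩ | ⟨q, hq, -⟩)
          · have := Sum.inl_injective ha'
            rw [this]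
            rfl
          · cases hq
      | inr q =>
        constructor
        · intro h
          exact Or.inr ⟨q, rfl, h⟩
        · rintro (⟨a', ha'⟩ | ⟨q', hq', h⟩)
          · cases ha'
          · have := Sum.inr_injective hq'
            rw [this]
            exact h
    · rw [Set.disjoint_left]
      rintro i ⟨a, ha⟩ ⟨q, hq, -⟩
      have ha' : t i = _ := ha
      rw [ha'] at hq
      cases hq
  have h2 : cn (fun y => ¬ IsT Φ y) t = cn (PA false) t + cn (PN Φ) t := by
    unfold cn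
    rw [← Set.ncard_union_eq]
    · congr 1
      ext i
      simp only [Set.mem_ofPred_eq, Set.mem_union]
      cases hi : t i with
      | inl a =>
        constructor
        · intro h
          left
          refine ⟨a.1, ?_⟩
          have h2 : ¬ a.2 = true := h
          have h3 : a.2 = false := by simpa using h2
          rw [← h3]
        · rintro (⟨a', ha'⟩ | ⟨q, hq, -⟩)
          · have := Sum.inl_injective ha'
            rw [this]
            intro h
            have h2 : false = true := h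
            cases h2
          · cases hq
      | inr q =>
        constructor
        · intro h
          exact Or.inr ⟨q, rfl, h⟩
        · rintro (⟨a', ha'⟩ | ⟨q', hq', h⟩)
          · cases ha'
          · have := Sum.inr_injective hq'
            rw [this]
            exact h
    · rw [Set.disjoint_left]
      rintro i ⟨a, ha⟩ ⟨q, hq, -⟩
      have ha' : t i = _ := ha
      rw [ha'] at hq
      cases hq
  have h3 := cn_not (IsT Φ) t
  have h4 : Nat.card (Fin (2 * n)) = 2 * n := by simp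
  have h5 : cn (IsT Φ) t = cntT Φ t := rfl
  unfold Bal at h
  omega

/-- the letters of the four kinds are all the letters -/
theorem cn_all {T : Type} [Finite T] (Φ : ∀ i, Set (K i →+* ℂ)) (t : T → Lt M G K) :
    cn (PA true) t + cn (PA false) t + cn (PB Φ) t + cn (PN Φ) t = Nat.card T := by
  classical
  have := Fintype.ofFinite T
  rw [Nat.card_eq_fintype_card, Fintype.card_eq_sum_ones]
  unfold cn
  simp only [Set.ncard_eq_toFinset_card']
  simp only [Set.toFinset_ofPred, Finset.card_filter]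
  rw [← Finset.sum_add_distrib, ← Finset.sum_add_distrib, ← Finset.sum_add_distrib]
  refine Finset.sum_congr rfl fun i _ => ?_
  have h1 : ∀ q : Idx K, ¬ PA (M := M) (G := G) true (Sum.inr q : Lt M G K) := by
    rintro q ⟨a, ha⟩
    cases ha
  have h2 : ∀ q : Idx K, ¬ PA (M := M) (G := G) false (Sum.inr q : Lt M G K) := by
    rintro q ⟨a, ha⟩
    cases ha
  have h3 : ∀ a, ¬ PB Φ (Sum.inl a : Lt M G K) := by
    rintro a ⟨q, hq, -⟩
    cases hq
  have h4 : ∀ a, ¬ PN Φ (Sum.inl a : Lt M G K) := by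
    rintro a ⟨q, hq, -⟩
    cases hq
  cases hi : t i with
  | inl a =>
    obtain ⟨a, v⟩ := a
    rw [if_neg (h3 _), if_neg (h4 _)]
    cases v
    · rw [if_neg, if_pos ⟨a, rfl⟩]
      rintro ⟨a', ha'⟩
      have := Sum.inl_injective ha'
      simp at this
    · rw [if_pos ⟨a, rfl⟩, if_neg]
      rintro ⟨a', ha'⟩
      have := Sum.inl_injective ha'
      simp at this
  | inr q =>
    rw [if_neg (h1 _), if_neg (h2 _)]
    by_cases hq : q.2 ∈ Φ q.1
    · rw [if_pos ⟨q, rfl, hq⟩, if_neg]
      rintro ⟨q', hq', h⟩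
      have := Sum.inr_injective hq'
      rw [this] at hq
      exact h hq
    · rw [if_neg, if_pos ⟨q, rfl, hq⟩]
      rintro ⟨q', hq', h⟩
      have := Sum.inr_injective hq'
      rw [this] at hq
      exact hq h

end bal

end

end Pool.Agent.TPR.Dbp

namespace Pool.Agent.TPR

open Dbp

section final

variable {S Λ : Type} {M G : S → Type} [Fintype Λ] {ι : Type} {K : ι → Type} [∀ i, Field (K i)]

theorem dB_of_isProdD {b : Λ → Crd M G → ℂ} {Φ : ∀ i, Set (K i →+* ℂ)} {n : ℕ}
    {w : (Fin (2 * n) → Lt M G K) → ℂ} (hw : IsProdD b Φ n w) : DB Φ w := by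
  intro t ht
  by_contra hc
  apply ht
  obtain ⟨j, c, e, d, v, -, ⟨hd, hd'⟩, hv, rfl⟩ := hw
  obtain ⟨σ, hσ⟩ := exists_of_alt hc
  have h1 := left_ne_zero_of_mul hσ
  have h2 := right_ne_zero_of_mul hσ
  have h3 : Bal Φ (t ∘ σ) := by
    refine bal_sum Φ e (t ∘ σ) ?_ ?_
    · refine bal_A Φ (j := j) (by simp) (HA_support b hd h1) ?_
      by_contra h
      exact h1 (hd' _ h)
    · exact bal_extB hv h2
  exact bal_perm Φ t σ h3

theorem card_letters {T : Type} [Finite T] (Φ : ∀ i, Set (K i →+* ℂ)) (t : T → Lt M G K) :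
    nAT t + nAF t + nBT Φ t + nBF Φ t = Nat.card T :=
  cn_all Φ t

theorem dB_hodge {Φ : ∀ i, Set (K i →+* ℂ)} {n : ℕ} {u : (Fin (2 * n) → Lt M G K) → ℂ}
    (hu : DB Φ u) (t : Fin (2 * n) → Lt M G K) (ht : cntT Φ t ≠ n) : u t = 0 := by
  refine hu t fun h => ht ?_
  exact cntT_of_bal h

end final

end Pool.Agent.TPR
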