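import Pool.Agent.Lib.TPR.Dbp

/-!
# TateProducts: products of divisor classes and ball classes are doubly balanced (helper94)
-/

set_option autoImplicit false

open Complex Pool.Agent.RAT Pool.Agent.HCM Pool.Agent.GG

namespace Pool.Agent.TPR

open Dbp

variable {S Λ : Type} {M G : S → Type} [Fintype Λ] {ι : Type} {K : ι → Type} [∀ i, Field (K i)]

theorem dB_of_prodC {b : Λ → Crd M G → ℂ} {Φ : ∀ i, Set (K i →+* ℂ)} {n j c : ℕ}
    (e : (Fin j × Fin 2) ⊕ Two c ≃ Fin (2 * n)) (δ : Fin j → (Fin 2 → Lt M G K) → ℂ)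
    (v : (Two c → Idx K) → ℂ)
    (hδ : ∀ r, δ r ∈ HA K b (Fin 2) ∧ ∀ t, cntT Φ t ≠ 1 → δ r t = 0)
    (hv : (c = 0 ∧ ∃ q : ℚ, ∀ t, v t = q) ∨ (0 < c ∧ IsBallQ Φ v)) :
    DB Φ (alt fun t => (∏ r, δ r fun i => t (e (Sum.inl (r, i)))) *
      extB v fun i => t (e (Sum.inr i))) := by
  intro t ht
  by_contra hc
  apply ht
  obtain ⟨σ, hσ⟩ := exists_of_alt hc
  have h1 := left_ne_zero_of_mul hσ
  have h2 := right_ne_zero_of_mul hσ
  have h3 : Bal Φ (t ∘ σ) := by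
    refine bal_sum Φ e (t ∘ σ) ?_ ?_
    · refine bal_prod Φ _ fun r => ?_
      have h4 := Finset.prod_ne_zero_iff.1 h1 r (Finset.mem_univ r)
      refine bal_A Φ (j := 1) (by simp) (HA_support b (hδ r).1 h4) ?_
      by_contra h
      exact h4 ((hδ r).2 _ h)
    · exact bal_extB hv h2
  exact bal_perm Φ t σ h3

end Pool.Agent.TPR
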