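import Pool.Agent.Lib.GG.Stat
import Pool.Agent.Lib.HCM.TateDefs

/-!
# The Tate conjecture for `A × B`, `B` of CM type: statement

`A = ℂ^P / ∑ ℤ b_i` is any complex torus, `B` the product of the tori of CM type of
`Pool.Agent.Lib.HCM.Stat`; letters, `H_m(A × B, ℚ)` (`HX`) and `H_m(A, ℚ)` (`HA`) are as in
`Pool.Agent.Lib.GG.Stat`.
-/

set_option autoImplicit false

open scoped ComplexConjugate Matrix TensorProduct
open Complex Pool.Agent.HCM Pool.Agent.RAT Pool.Agent.GG

namespace Pool.Agent.TPR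

noncomputable section

section lie

variable {S Λ : Type} {M G : S → Type} [Fintype Λ] [Fintype S] [∀ s, Fintype (M s)]
  [∀ s, Fintype (G s)]

/-- The Hodge Lie algebra of `A`: the least Lie algebra of rational endomorphisms of `H_1(A, ℚ)`
whose complexification contains the Hodge structure `hM`. -/
def hodgeLie (b : Λ → Crd M G → ℂ) : Submodule ℚ (Matrix Λ Λ ℚ) :=
  sInf {𝔪 | (∀ X ∈ 𝔪, ∀ X' ∈ 𝔪, X * X' - X' * X ∈ 𝔪) ∧
    (hM : Matrix (AL M G) (AL M G) ℂ) ∈ Submodule.span ℂ {Z | ∃ X ∈ 𝔪, IsRep b X Z}}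

end lie

section torus

variable {S Λ : Type} {M G : S → Type} [Fintype Λ] [Fintype S] [∀ s, Fintype (M s)]
  [∀ s, Fintype (G s)] {ι : Type} {K : ι → Type} [∀ i, Field (K i)] {T : Type} [Fintype T]
  [DecidableEq T]

/-- The derivation given by the matrix `Z` on `H_1(A, ℂ)` and by zero on `H_1(B, ℂ)`. -/
def lieF (Z : Matrix (AL M G) (AL M G) ℂ) :
    ((T → Lt M G K) → ℂ) →ₗ[ℚ] ((T → Lt M G K) → ℂ) where
  toFun u t := ∑ a, Sum.elim (fun y => ∑ y', Z y y' * u (Function.update t a (Sum.inl y')))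
    (fun _ => 0) (t a)
  map_add' u v := by
    funext t
    rw [Pi.add_apply, ← Finset.sum_add_distrib]
    refine Finset.sum_congr rfl fun a _ => ?_
    cases t a with
    | inl y => simp [mul_add, Finset.sum_add_distrib]
    | inr q => simp
  map_smul' q u := by
    funext t
    rw [Pi.smul_apply, Finset.smul_sum]
    refine Finset.sum_congr rfl fun a _ => ?_
    cases t a with
    | inl y => simp [Finset.smul_sum]
    | inr q => simp

/-- Multiplication by `N` on `A` and by `z` on `B`, as a function. -/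
def mulU (N : ℚ) (z : ∀ i, K i) (u : (T → Lt M G K) → ℂ) (t : T → Lt M G K) : ℂ :=
  (∏ a, Sum.elim (fun _ => (N : ℂ)) (fun q => q.2 (z q.1)) (t a)) * u t

omit [Fintype Λ] [Fintype S] [∀ s, Fintype (M s)] [∀ s, Fintype (G s)] [DecidableEq T] in
theorem mulU_add (N : ℚ) (z : ∀ i, K i) (u v : (T → Lt M G K) → ℂ) :
    mulU N z (u + v) = mulU N z u + mulU N z v := by
  funext t
  simp only [mulU, Pi.add_apply, mul_add]

omit [Fintype Λ] [Fintype S] [∀ s, Fintype (M s)] [∀ s, Fintype (G s)] [DecidableEq T] in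
theorem mulU_smul (N : ℚ) (z : ∀ i, K i) (q : ℚ) (u : (T → Lt M G K) → ℂ) :
    mulU N z (q • u) = q • mulU N z u := by
  funext t
  simp only [mulU, Pi.smul_apply, mul_smul_comm]

/-- Multiplication by `N` on `A` and by `z` on `B`. -/
def mulF (N : ℚ) (z : ∀ i, K i) : ((T → Lt M G K) → ℂ) →ₗ[ℚ] ((T → Lt M G K) → ℂ) where
  toFun := mulU N z
  map_add' := mulU_add N z
  map_smul' := mulU_smul N z

theorem lieF_apply (Z : Matrix (AL M G) (AL M G) ℂ) (u : (T → Lt M G K) → ℂ)
    (t : T → Lt M G K) : lieF Z u t = ∑ a, Sum.elim (fun y => ∑ y', Z y y' *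
      u (Function.update t a (Sum.inl y'))) (fun _ => 0) (t a) := rfl

theorem mulF_apply (N : ℚ) (z : ∀ i, K i) (u : (T → Lt M G K) → ℂ) (t : T → Lt M G K) :
    mulF N z u t = (∏ a, Sum.elim (fun _ => (N : ℂ)) (fun q => q.2 (z q.1)) (t a)) * u t := rfl

omit [Fintype Λ] [Fintype S] [∀ s, Fintype (M s)] [∀ s, Fintype (G s)] in
/-- the derivative of a determinant by rows and by columns -/
theorem det_der (A B : Matrix T T ℂ) : ∑ a, (A.updateRow a (B a)).det =
    ∑ c, (A.updateCol c fun a => B a c).det := by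
  simp only [Matrix.det_apply]
  rw [Finset.sum_comm, Finset.sum_comm (s := Finset.univ (α := T))]
  refine Finset.sum_congr rfl fun σ _ => ?_
  rw [← Equiv.sum_comp σ]
  refine Finset.sum_congr rfl fun c _ => ?_
  congr 1
  refine Finset.prod_congr rfl fun i _ => ?_
  by_cases h : i = c
  · subst h
    rw [Matrix.updateRow_self, Matrix.updateCol_self]
  · rw [Matrix.updateRow_ne (fun h' => h (σ.injective h')), Matrix.updateCol_ne h]

theorem lieF_torX {b : Λ → Crd M G → ℂ} {X : Matrix Λ Λ ℚ} {Z : Matrix (AL M G) (AL M G) ℂ}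
    (h : IsRep b X Z) (x : T → Lp Λ K) : lieF Z (torX b x) =
      ∑ c, torX b (Function.update x c ((X.mulVec (x c).1, 0) : Lp Λ K)) := by
  funext t
  rw [lieF_apply, Finset.sum_apply]
  have h1 := det_der (Matrix.of fun a c => per b (t a) (x c))
    (Matrix.of fun a c => per b (t a) ((X.mulVec (x c).1, 0) : Lp Λ K))
  have h2 : ∀ c, torX b (Function.update x c ((X.mulVec (x c).1, 0) : Lp Λ K)) t =
      ((Matrix.of fun a c => per b (t a) (x c)).updateCol c fun a =>
        (Matrix.of fun a c => per b (t a) ((X.mulVec (x c).1, 0) : Lp Λ K)) a c).det := by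
    intro c
    unfold torX
    congr 1
    ext a c'
    by_cases h : c' = c
    · subst h
      rw [Matrix.updateCol_self]
      simp
    · rw [Matrix.updateCol_ne h]
      simp [h]
  rw [Finset.sum_congr rfl fun c _ => h2 c, ← h1]
  refine Finset.sum_congr rfl fun a _ => ?_
  rcases ht : t a with y | q
  · rw [Sum.elim_inl]
    have h3 : ∀ y', torX b x (Function.update t a (Sum.inl y')) =
        ((Matrix.of fun a c => per b (t a) (x c)).updateRow a fun c =>
          per b (Sum.inl y') (x c)).det := by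
      intro y'
      unfold torX
      congr 1
      ext a' c
      by_cases h : a' = a
      · subst h
        rw [Matrix.updateRow_self]
        simp
      · rw [Matrix.updateRow_ne h]
        simp [h]
    have h4 : ((Matrix.of fun a c => per b (t a) ((X.mulVec (x c).1, 0) : Lp Λ K)) a) =
        ∑ y', Z y y' • fun c => per b (Sum.inl y' : Lt M G K) (x c) := by
      funext c
      rw [Finset.sum_apply]
      simp only [Matrix.of_apply, ht, Pi.smul_apply, smul_eq_mul]
      exact h y (x c).1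
    rw [h4]
    simp only [h3]
    have h5 := (Matrix.detRowAlternating (R := ℂ) (n := T)).toMultilinearMap.map_update_sum
      (Finset.univ) a (fun y' => Z y y' • fun c => per b (Sum.inl y' : Lt M G K) (x c))
      (Matrix.of fun a c => per b (t a) (x c))
    have h6 : ∀ r : T → ℂ, ((Matrix.of fun a c => per b (t a) (x c)).updateRow a r).det =
        (Matrix.detRowAlternating (R := ℂ) (n := T)).toMultilinearMap
          (Function.update (Matrix.of fun a c => per b (t a) (x c)) a r) := fun r => rfl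
    rw [h6, h5]
    refine Finset.sum_congr rfl fun y' _ => ?_
    rw [← h6, Matrix.det_updateRow_smul]
  · rw [Sum.elim_inr]
    symm
    have h4 : ((Matrix.of fun a c => per b (t a) ((X.mulVec (x c).1, 0) : Lp Λ K)) a) = 0 := by
      funext c
      simp only [Matrix.of_apply, ht]
      exact map_zero q.2
    rw [h4]
    exact Matrix.det_eq_zero_of_row_eq_zero a fun c => by rw [Matrix.updateRow_self]; rfl

theorem mulF_torX {b : Λ → Crd M G → ℂ} (N : ℚ) (z : ∀ i, K i) (x : T → Lp Λ K) :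
    mulF N z (torX b x) =
      torX b fun c => ((N • (x c).1, fun i => z i * (x c).2 i) : Lp Λ K) := by
  funext t
  rw [mulF_apply]
  unfold torX
  rw [← Matrix.det_mul_column]
  congr 1
  ext a c
  simp only [Matrix.of_apply]
  rcases t a with y | q
  · simp only [Sum.elim_inl, per, perA, Pi.smul_apply, smul_eq_mul, Rat.cast_mul]
    split_ifs
    · rw [Finset.mul_sum]
      exact Finset.sum_congr rfl fun i _ => by ring
    · simp only [map_sum, map_mul, Finset.mul_sum]
      refine Finset.sum_congr rfl fun i _ => ?_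
      rw [← mul_assoc]
      congr 2
      exact (Complex.conj_ofReal _ ▸ by simp)
  · simp only [Sum.elim_inr, per, map_mul]

theorem lieF_mem {b : Λ → Crd M G → ℂ} {X : Matrix Λ Λ ℚ} {Z : Matrix (AL M G) (AL M G) ℂ}
    (h : IsRep b X Z) {u : (T → Lt M G K) → ℂ} (hu : u ∈ HX K b T) : lieF Z u ∈ HX K b T := by
  unfold HX at hu ⊢
  induction hu using Submodule.span_induction with
  | mem u hu =>
    obtain ⟨x, rfl⟩ := hu
    rw [lieF_torX h]
    exact Submodule.sum_mem _ fun c _ => Submodule.subset_span ⟨_, rfl⟩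
  | zero =>
    rw [map_zero]
    exact Submodule.zero_mem _
  | add u v _ _ hu hv =>
    rw [map_add]
    exact Submodule.add_mem _ hu hv
  | smul q u _ hu =>
    rw [map_smul]
    exact Submodule.smul_mem _ _ hu

theorem mulF_mem {b : Λ → Crd M G → ℂ} (N : ℚ) (z : ∀ i, K i) {u : (T → Lt M G K) → ℂ}
    (hu : u ∈ HX K b T) : mulF N z u ∈ HX K b T := by
  unfold HX at hu ⊢
  induction hu using Submodule.span_induction with
  | mem u hu =>
    obtain ⟨x, rfl⟩ := hu
    rw [mulF_torX]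
    exact Submodule.subset_span ⟨_, rfl⟩
  | zero =>
    rw [map_zero]
    exact Submodule.zero_mem _
  | add u v _ _ hu hv =>
    rw [map_add]
    exact Submodule.add_mem _ hu hv
  | smul q u _ hu =>
    rw [map_smul]
    exact Submodule.smul_mem _ _ hu

end torus

section homology

variable {S Λ : Type} {M G : S → Type} [Fintype Λ] [Fintype S] [∀ s, Fintype (M s)]
  [∀ s, Fintype (G s)] {ι : Type} {K : ι → Type} [∀ i, Field (K i)] {n : ℕ}

/-- `H_{2n}(A × B, ℚ)`, as a type. -/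
def HC {S Λ : Type} {M G : S → Type} [Fintype Λ] {ι : Type} (K : ι → Type) [∀ i, Field (K i)]
    (b : Λ → Crd M G → ℂ) (n : ℕ) : Type := HX K b (Fin (2 * n))

/-- The function of words given by a class in `H_{2n}(A × B, ℚ)`. -/
def HC.fn {b : Λ → Crd M G → ℂ} (u : HC K b n) : (Fin (2 * n) → Lt M G K) → ℂ := u.1

instance instAddCommGroupHC (b : Λ → Crd M G → ℂ) : AddCommGroup (HC K b n) :=
  (HX K b (Fin (2 * n))).addCommGroup

instance instModuleHC (b : Λ → Crd M G → ℂ) : Module ℚ (HC K b n) :=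
  (HX K b (Fin (2 * n))).module

/-- The action on `H_{2n}(A × B, ℚ)` of the endomorphism `X` of `H_1(A, ℚ)`, as a derivation. -/
def lieH {b : Λ → Crd M G → ℂ} {X : Matrix Λ Λ ℚ} {Z : Matrix (AL M G) (AL M G) ℂ}
    (h : IsRep b X Z) : HC K b n →ₗ[ℚ] HC K b n :=
  (lieF Z).restrict fun _ hu => lieF_mem h hu

/-- The action on `H_{2n}(A × B, ℚ)` of the multiplication by `N` on `A` and by `z` on `B`. -/
def mulH (b : Λ → Crd M G → ℂ) (N : ℚ) (z : ∀ i, K i) : HC K b n →ₗ[ℚ] HC K b n :=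
  (mulF N z).restrict fun _ hu => mulF_mem N z hu

/-- `H_{2n}(A × B, ℚ_p) = ℚ_p ⊗ H_{2n}(A × B, ℚ)`. -/
def HCp {S Λ : Type} {M G : S → Type} [Fintype Λ] (p : ℕ) [Fact p.Prime] {ι : Type}
    (K : ι → Type) [∀ i, Field (K i)] (b : Λ → Crd M G → ℂ) (n : ℕ) : Type :=
  ℚ_[p] ⊗[ℚ] HC K b n

variable (p : ℕ) [Fact p.Prime]

instance instAddCommGroupHCp (b : Λ → Crd M G → ℂ) : AddCommGroup (HCp p K b n) :=
  inferInstanceAs (AddCommGroup (ℚ_[p] ⊗[ℚ] HC K b n))

instance instModuleHCp (b : Λ → Crd M G → ℂ) : Module ℚ_[p] (HCp p K b n) :=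
  inferInstanceAs (Module ℚ_[p] (ℚ_[p] ⊗[ℚ] HC K b n))

/-- The map `H_{2n}(A × B, ℚ) → H_{2n}(A × B, ℚ_p)`. -/
def toHCp {b : Λ → Crd M G → ℂ} (u : HC K b n) : HCp p K b n := (1 : ℚ_[p]) ⊗ₜ[ℚ] u

/-- The action on `H_{2n}(A × B, ℚ_p)` of the endomorphism `X` of `H_1(A, ℚ)`. -/
def lieP {b : Λ → Crd M G → ℂ} {X : Matrix Λ Λ ℚ} {Z : Matrix (AL M G) (AL M G) ℂ}
    (h : IsRep b X Z) : HCp p K b n →ₗ[ℚ_[p]] HCp p K b n := (lieH h).baseChange ℚ_[p]

/-- The action on `H_{2n}(A × B, ℚ_p)` of the multiplication by `N` on `A` and by `z` on `B`. -/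
def mulP (b : Λ → Crd M G → ℂ) (N : ℚ) (z : ∀ i, K i) : HCp p K b n →ₗ[ℚ_[p]] HCp p K b n :=
  (mulH b N z).baseChange ℚ_[p]

/-- Tate classes in `H_{2n}(A × B, ℚ_p)`: the Hodge Lie algebra of `A` kills `c`, and, for some `m`,
for every `x ∈ 𝓞 E` with `x ≡ 1 mod p^m` the multiplication by the norm of `x` on `A` and by the
square of the reflex norm of `x` on `B` acts on `c` by the `2n`-th power of the norm of `x`. -/
def IsTateX {E : Type} [Field E] [NumberField E] (b : Λ → Crd M G → ℂ)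
    (Φ : ∀ i, Set (K i →+* ℂ)) (j : ∀ i, K i →+* E) (τ₀ : E →+* ℂ) (c : HCp p K b n) : Prop :=
  (∀ X ∈ hodgeLie b, ∀ (Z : Matrix (AL M G) (AL M G) ℂ) (h : IsRep b X Z), lieP p h c = 0) ∧
  ∃ m : ℕ, ∀ y : E, IsIntegral ℤ y → ∀ z : ∀ i, K i,
    IsReflexNorm Φ j τ₀ (1 + (p : E) ^ m * y) z →
      mulP p b (Algebra.norm ℚ (1 + (p : E) ^ m * y)) (fun i => z i ^ 2) c =
        ((Algebra.norm ℚ (1 + (p : E) ^ m * y) : ℚ) : ℚ_[p]) ^ (2 * n) • c

end homology

section products

variable {S Λ : Type} {M G : S → Type} [Fintype Λ] {ι : Type} {K : ι → Type}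
  [∀ i, Field (K i)]

/-- `w`, of degree `2n`, is the Pontryagin product of a Hodge class `d` of degree `2j` on `A` and of
a class `v`, of degree `2c` on `B`, which is a combination of classes of maps from compact arithmetic
quotients of the `c`-ball to `B` (a rational number for `c = 0`), `j + c = n`. -/
def IsProdD (b : Λ → Crd M G → ℂ) (Φ : ∀ i, Set (K i →+* ℂ)) (n : ℕ)
    (w : (Fin (2 * n) → Lt M G K) → ℂ) : Prop :=
  ∃ (j c : ℕ) (e : Fin (2 * j) ⊕ Two c ≃ Fin (2 * n)) (d : (Fin (2 * j) → Lt M G K) → ℂ)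
    (v : (Two c → Idx K) → ℂ),
    j + c = n ∧
    (d ∈ HA K b (Fin (2 * j)) ∧ ∀ t, cntT Φ t ≠ j → d t = 0) ∧
    ((c = 0 ∧ ∃ q : ℚ, ∀ t, v t = q) ∨ (0 < c ∧ IsBallQ Φ v)) ∧
    w = alt fun t => d (fun i => t (e (Sum.inl i))) * extB v fun i => t (e (Sum.inr i))

/-- The rational classes with the property `P`, in `H_{2n}(A × B, ℚ_p)`. -/
def RatP (p : ℕ) [Fact p.Prime] {n : ℕ} {b : Λ → Crd M G → ℂ}
    (P : ((Fin (2 * n) → Lt M G K) → ℂ) → Prop) : Set (HCp p K b n) :=
  {c | ∃ u : HC K b n, P u.fn ∧ c = toHCp p u}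

end products

/-! ## Balanced words -/

section balanced

variable {S : Type} {M G : S → Type} {ι : Type} {K : ι → Type} [∀ i, Field (K i)] {T : Type}

/-- The number of letters `dz_p`. -/
def nAT (t : T → Lt M G K) : ℕ := {a | ∃ y, t a = Sum.inl (y, true)}.ncard

/-- The number of letters `conj dz_p`. -/
def nAF (t : T → Lt M G K) : ℕ := {a | ∃ y, t a = Sum.inl (y, false)}.ncard

/-- The number of letters of type `(1,0)` on `B`. -/
def nBT (Φ : ∀ i, Set (K i →+* ℂ)) (t : T → Lt M G K) : ℕ :=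
  {a | ∃ q : Idx K, t a = Sum.inr q ∧ q.2 ∈ Φ q.1}.ncard

/-- The number of letters of type `(0,1)` on `B`. -/
def nBF (Φ : ∀ i, Set (K i →+* ℂ)) (t : T → Lt M G K) : ℕ :=
  {a | ∃ q : Idx K, t a = Sum.inr q ∧ q.2 ∉ Φ q.1}.ncard

/-- doubly balanced -/
def DB (Φ : ∀ i, Set (K i →+* ℂ)) (u : (T → Lt M G K) → ℂ) : Prop :=
  ∀ t, ¬ (nAT t = nAF t ∧ nBT Φ t = nBF Φ t) → u t = 0

end balanced

end

end Pool.Agent.TPR
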