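import Pool.Agent.Lib.TPR.Defs

/-!
# Products of divisor classes of `A` and ball classes of `B`
-/

set_option autoImplicit false

open scoped ComplexConjugate Matrix TensorProduct
open Complex Pool.Agent.HCM Pool.Agent.RAT Pool.Agent.GG

namespace Pool.Agent.TPR

noncomputable section

variable {S Λ : Type} {M G : S → Type} [Fintype Λ] {ι : Type} {K : ι → Type}
  [∀ i, Field (K i)]

/-- `w`, of degree `2n`, is the Pontryagin product of `j` rational classes `δ r` of type `(1,1)` in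
`H_2(A)` and of a class `v`, of degree `2c` on `B`, which is a combination of classes of maps from
compact arithmetic quotients of the `c`-ball to `B` (a rational number for `c = 0`), `j + c = n`. -/
def IsProdC (b : Λ → Crd M G → ℂ) (Φ : ∀ i, Set (K i →+* ℂ)) (n : ℕ)
    (w : (Fin (2 * n) → Lt M G K) → ℂ) : Prop :=
  ∃ (j c : ℕ) (e : (Fin j × Fin 2) ⊕ Two c ≃ Fin (2 * n))
    (δ : Fin j → (Fin 2 → Lt M G K) → ℂ) (v : (Two c → Idx K) → ℂ),
    j + c = n ∧
    (∀ r, δ r ∈ HA K b (Fin 2) ∧ ∀ t, cntT Φ t ≠ 1 → δ r t = 0) ∧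
    ((c = 0 ∧ ∃ q : ℚ, ∀ t, v t = q) ∨ (0 < c ∧ IsBallQ Φ v)) ∧
    w = alt fun t => (∏ r, δ r fun i => t (e (Sum.inl (r, i)))) *
      extB v fun i => t (e (Sum.inr i))

end

end Pool.Agent.TPR
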