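import Pool.Agent.Lib.HCM.TateD
import Pool.Agent.Lib.HCM.TateG
import Pool.Agent.Lib.HCM.TateT
import Pool.Agent.Lib.RAT.Defs

/-!
# A copy of `HCM.TateE` and of most of `HCM.Tate` (helper79)

`HCM.TateE` and `HCM.GDiag` both declare `Pool.Agent.HCM.exists_val`, so they cannot be imported
together; here the lemmas are in the namespace `Pool.Agent.TPR.Tt`.
-/

open scoped TensorProduct
open Complex Pool.Agent.HCM

namespace Pool.Agent.TPR.Tt

noncomputable section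

section coord

variable {L M κ : Type} [Field L] [Algebra ℚ L] [AddCommGroup M] [Module ℚ M]

open Classical in
/-- the coordinates of `c` with respect to a basis of `L` over `ℚ` -/
def coord (b : Module.Basis κ ℚ L) (c : L ⊗[ℚ] M) : κ →₀ M :=
  TensorProduct.equivFinsuppOfBasisLeft b c

theorem coord_sum (b : Module.Basis κ ℚ L) (c : L ⊗[ℚ] M) :
    c = ∑ k ∈ (coord b c).support, b k ⊗ₜ[ℚ] coord b c k := by
  classical
  have h := (TensorProduct.equivFinsuppOfBasisLeft (N := M) b).symm_apply_apply c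
  rw [TensorProduct.equivFinsuppOfBasisLeft_symm_apply] at h
  exact h.symm

theorem coord_baseChange (b : Module.Basis κ ℚ L) (f : M →ₗ[ℚ] M) (c : L ⊗[ℚ] M) (k : κ) :
    coord b (f.baseChange L c) k = f (coord b c k) := by
  classical
  unfold coord
  induction c using TensorProduct.induction_on with
  | zero => simp
  | tmul l u =>
    rw [LinearMap.baseChange_tmul, TensorProduct.equivFinsuppOfBasisLeft_apply_tmul_apply,
      TensorProduct.equivFinsuppOfBasisLeft_apply_tmul_apply, map_smul]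
  | add c c' hc hc' =>
    simp only [map_add, Finsupp.add_apply, hc, hc']

theorem coord_smul (b : Module.Basis κ ℚ L) (q : ℚ) (c : L ⊗[ℚ] M) (k : κ) :
    coord b ((q : L) • c) k = q • coord b c k := by
  classical
  unfold coord
  have h : (q : L) • c = q • c := by
    rw [← eq_ratCast (algebraMap ℚ L) q, algebraMap_smul]
  rw [h, map_smul, Finsupp.smul_apply]

end coord

section equivariance

variable {ι : Type} {K : ι → Type} [∀ i, Field (K i)] {n : ℕ} {E : Type} [Field E]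
  [NumberField E]

/-- the index given by `i` and `h` -/
def tt (j : ∀ i, K i →+* E) (τ₀ : E →+* ℂ) (i : Two n → ι) (h : Two n → (E ≃ₐ[ℚ] E)) :
    Two n → Idx K := fun a => ⟨i a, τ₀.comp ((h a : E →+* E).comp (j (i a)))⟩

theorem exists_val (j : ∀ i, K i →+* E) (τ₀ : E →+* ℂ) {u : (Two n → Idx K) → ℂ}
    (hu : u ∈ HQ K n) :
    ∃ U : (Two n → ι) → (Two n → (E ≃ₐ[ℚ] E)) → E, (∀ i h, u (tt j τ₀ i h) = τ₀ (U i h)) ∧
      ∀ (σ : E ≃ₐ[ℚ] E) i h, U i (fun a => σ * h a) = σ (U i h) := by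
  unfold HQ at hu
  induction hu using Submodule.span_induction with
  | mem u hu =>
    obtain ⟨x, rfl⟩ := hu
    refine ⟨fun i h => Matrix.det (Matrix.of fun a b => h a (j (i a) (x b (i a)))), ?_, ?_⟩
    · intro i h
      rw [RingHom.map_det]
      rfl
    · intro σ i h
      have h1 := RingHom.map_det (σ : E →+* E)
        (Matrix.of fun a b => h a (j (i a) (x b (i a))))
      exact h1.symm
  | zero =>
    refine ⟨fun _ _ => 0, fun _ _ => (map_zero τ₀).symm, fun σ _ _ => (map_zero σ).symm⟩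
  | add u v _ _ hu hv =>
    obtain ⟨U, h1, h2⟩ := hu
    obtain ⟨V, h3, h4⟩ := hv
    refine ⟨fun i h => U i h + V i h, fun i h => ?_, fun σ i h => ?_⟩
    · rw [Pi.add_apply, h1, h3, map_add]
    · simp only [h2, h4, map_add]
  | smul q u _ hu =>
    obtain ⟨U, h1, h2⟩ := hu
    refine ⟨fun i h => (q : E) * U i h, fun i h => ?_, fun σ i h => ?_⟩
    · rw [Pi.smul_apply, h1, Rat.smul_def, map_mul, map_ratCast]
    · simp only [h2, map_mul, map_ratCast]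

/-- the nonzero values of a rational class are stable under the Galois group -/
theorem ne_zero_of_gal (j : ∀ i, K i →+* E) (τ₀ : E →+* ℂ) {u : (Two n → Idx K) → ℂ}
    (hu : u ∈ HQ K n) (σ : E ≃ₐ[ℚ] E) (i : Two n → ι) (h : Two n → (E ≃ₐ[ℚ] E))
    (h0 : u (tt j τ₀ i h) ≠ 0) : u (tt j τ₀ i fun a => σ * h a) ≠ 0 := by
  obtain ⟨U, h1, h2⟩ := exists_val j τ₀ hu
  rw [h1] at h0 ⊢
  rw [h2]
  intro h3
  apply h0
  have h4 : σ (U i h) = 0 := τ₀.injective (h3.trans (map_zero τ₀).symm)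
  have h5 : U i h = 0 := σ.injective (h4.trans (map_zero σ).symm)
  rw [h5, map_zero]

theorem exists_tt [IsGalois ℚ E] [∀ i, NumberField (K i)] (j : ∀ i, K i →+* E) (τ₀ : E →+* ℂ)
    (t : Two n → Idx K) : ∃ h : Two n → (E ≃ₐ[ℚ] E),
      (∀ a, (t a).2 = τ₀.comp ((h a : E →+* E).comp (j (t a).1))) ∧
        t = tt j τ₀ (fun a => (t a).1) h := by
  have h1 : ∀ a, ∃ g : E ≃ₐ[ℚ] E, (t a).2 = τ₀.comp ((g : E →+* E).comp (j (t a).1)) :=
    fun a => exists_aut_comp (j (t a).1) τ₀ (t a).2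
  choose h hh using h1
  refine ⟨h, hh, ?_⟩
  funext a
  unfold tt
  rw [← hh]

end equivariance

section main

variable {ι : Type} {K : ι → Type} [∀ i, Field (K i)] [∀ i, NumberField (K i)] {n : ℕ}
  {E : Type} [Field E] [NumberField E] [IsGalois ℚ E]

open Classical in
/-- the exponent of `g` in the action of a reflex norm at the index `tt j τ₀ i h` -/
def ex (Φ : ∀ i, Set (K i →+* ℂ)) (j : ∀ i, K i →+* E) (τ₀ : E →+* ℂ) (i : Two n → ι)
    (h : Two n → (E ≃ₐ[ℚ] E)) (g : E ≃ₐ[ℚ] E) : ℕ :=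
  (Finset.univ.filter fun a =>
    τ₀.comp (((g⁻¹ * h a : E ≃ₐ[ℚ] E) : E →+* E).comp (j (i a))) ∈ Φ (i a)).card

omit [∀ i, NumberField (K i)] [IsGalois ℚ E] in
theorem ex_eq (Φ : ∀ i, Set (K i →+* ℂ)) (j : ∀ i, K i →+* E) (τ₀ : E →+* ℂ) (i : Two n → ι)
    (h : Two n → (E ≃ₐ[ℚ] E)) (g : E ≃ₐ[ℚ] E) :
    ex Φ j τ₀ i h g = {a | ((tt j τ₀ i fun a => g⁻¹ * h a) a).2 ∈
      Φ ((tt j τ₀ i fun a => g⁻¹ * h a) a).1}.ncard := by
  classical
  rw [Set.ncard_eq_toFinset_card']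
  unfold ex tt
  congr 1
  ext a
  simp

theorem norm_eq (τ₀ : E →+* ℂ) (x : E) :
    ((Algebra.norm ℚ x : ℚ) : ℂ) = ∏ g : E ≃ₐ[ℚ] E, τ₀ (g x) := by
  have h := congrArg τ₀ (Algebra.norm_eq_prod_automorphisms ℚ x)
  rw [map_prod, eq_ratCast, map_ratCast] at h
  exact h

/-- a rational Hodge class is a Tate class -/
theorem endo_of_hodge (Φ : ∀ i, Set (K i →+* ℂ)) (j : ∀ i, K i →+* E) (τ₀ : E →+* ℂ)
    (u : HQ K n) (hu : IsHodge Φ (u : (Two n → Idx K) → ℂ)) (x : E) (z : ∀ i, K i)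
    (hz : IsReflexNorm Φ j τ₀ x z) : endo z u = (Algebra.norm ℚ x) ^ n • u := by
  apply Subtype.ext
  funext t
  change (∏ a, (t a).2 (z (t a).1)) * (u : (Two n → Idx K) → ℂ) t =
    ((Algebra.norm ℚ x) ^ n : ℚ) • (u : (Two n → Idx K) → ℂ) t
  by_cases h0 : (u : (Two n → Idx K) → ℂ) t = 0
  · rw [h0, mul_zero, smul_zero]
  · obtain ⟨h, ha, hh⟩ := exists_tt j τ₀ t
    have h1 := prod_reflex Φ j τ₀ x z hz t h ha
    have h2 : ∀ g : E ≃ₐ[ℚ] E, ex Φ j τ₀ (fun a => (t a).1) h g = n := by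
      intro g
      rw [ex_eq]
      by_contra h3
      rw [hh] at h0
      exact ne_zero_of_gal j τ₀ u.2 g⁻¹ _ h h0 (hu _ h3)
    have h3 : ∏ a, (t a).2 (z (t a).1) = ∏ g : E ≃ₐ[ℚ] E, τ₀ (g x) ^ n := by
      rw [h1]
      exact Finset.prod_congr rfl fun g _ => congrArg (fun k => τ₀ (g x) ^ k) (h2 g)
    rw [h3, Finset.prod_pow, ← norm_eq, Rat.smul_def, Rat.cast_pow]

/-- a rational class on which the reflex norms act by the norm is a Hodge class -/
theorem hodge_of_endo (Φ : ∀ i, Set (K i →+* ℂ)) (j : ∀ i, K i →+* E) (τ₀ : E →+* ℂ)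
    (u : HQ K n) (N : ℕ) (hN : 0 < N) (hu : ∀ y : E, IsIntegral ℤ y → ∀ z : ∀ i, K i,
      IsReflexNorm Φ j τ₀ (1 + N * y) z → endo z u = (Algebra.norm ℚ (1 + N * y)) ^ n • u) :
    IsHodge Φ (u : (Two n → Idx K) → ℂ) := by
  intro t ht
  by_contra h0
  apply ht
  obtain ⟨h, ha, hh⟩ := exists_tt j τ₀ t
  have h1 : ex Φ j τ₀ (fun a => (t a).1) h = fun _ => n := by
    apply exp_eq τ₀ N hN
    intro y hy
    obtain ⟨z, hz⟩ := exists_reflexNorm Φ j τ₀ (1 + N * y)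
    have h2 := congrArg (fun w : HQ K n => (w : (Two n → Idx K) → ℂ) t) (hu y hy z hz)
    change (∏ a, (t a).2 (z (t a).1)) * (u : (Two n → Idx K) → ℂ) t =
      ((Algebra.norm ℚ (1 + N * y)) ^ n : ℚ) • (u : (Two n → Idx K) → ℂ) t at h2
    rw [Rat.smul_def] at h2
    have h3 := mul_right_cancel₀ h0 h2
    rw [Rat.cast_pow, norm_eq τ₀, ← Finset.prod_pow] at h3
    rw [← h3]
    symm
    exact prod_reflex Φ j τ₀ _ z hz t h ha
  have h2 := congrFun h1 1
  rw [ex_eq] at h2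
  have h3 : (tt j τ₀ (fun a => (t a).1) fun a => (1 : E ≃ₐ[ℚ] E)⁻¹ * h a) = t := by
    conv_rhs => rw [hh]
    simp only [inv_one, one_mul]
  rw [h3] at h2
  exact h2

end main

section span

variable {ι : Type} {K : ι → Type} [∀ i, Field (K i)] {n : ℕ}

theorem toHpT_add (p : ℕ) [Fact p.Prime] (u v : HQ K n) : toHpT p (u + v) = toHpT p u + toHpT p v :=
  TensorProduct.tmul_add _ _ _

theorem toHpT_zero (p : ℕ) [Fact p.Prime] : toHpT p (0 : HQ K n) = 0 :=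
  TensorProduct.tmul_zero _ _

theorem tmul_cast_smul (p : ℕ) [Fact p.Prime] {M : Type*} [AddCommGroup M] [Module ℚ M] (q : ℚ)
    (u : M) : (1 : ℚ_[p]) ⊗ₜ[ℚ] (q • u) = (q : ℚ_[p]) • ((1 : ℚ_[p]) ⊗ₜ[ℚ] u) := by
  rw [TensorProduct.tmul_smul, ← eq_ratCast (algebraMap ℚ ℚ_[p]) q, algebraMap_smul]

theorem toHpT_smul (p : ℕ) [Fact p.Prime] (q : ℚ) (u : HQ K n) :
    toHpT p (q • u) = (q : ℚ_[p]) • toHpT p u :=
  tmul_cast_smul p q u

theorem endoPT_toHpT (p : ℕ) [Fact p.Prime] (z : ∀ i, K i) (u : HQ K n) :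
    endoPT p z (toHpT p u) = toHpT p (endo z u) :=
  LinearMap.baseChange_tmul ..

/-- rational combinations of ball quotient classes -/
theorem toHpT_mem (p : ℕ) [Fact p.Prime] (Φ : ∀ i, Set (K i →+* ℂ)) (w : (Two n → Idx K) → ℂ)
    (hw : w ∈ Submodule.span ℚ {w | w ∈ HQ K n ∧ ∃ v ∈ BallCl Φ, w = (-2 * I) ^ n • v}) :
    ∃ h : w ∈ HQ K n, toHpT p ⟨w, h⟩ ∈ Submodule.span ℚ_[p] (BallPT p Φ) := by
  induction hw using Submodule.span_induction with
  | mem w hw => exact ⟨hw.1, Submodule.subset_span ⟨⟨w, hw.1⟩, hw.2, rfl⟩⟩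
  | zero =>
    refine ⟨Submodule.zero_mem _, ?_⟩
    have h : toHpT p (⟨0, Submodule.zero_mem _⟩ : HQ K n) = 0 := toHpT_zero p
    rw [h]
    exact Submodule.zero_mem _
  | add u v _ _ hu hv =>
    obtain ⟨hu, hu'⟩ := hu
    obtain ⟨hv, hv'⟩ := hv
    refine ⟨Submodule.add_mem _ hu hv, ?_⟩
    have h : toHpT p (⟨u + v, Submodule.add_mem _ hu hv⟩ : HQ K n) =
      toHpT p ⟨u, hu⟩ + toHpT p ⟨v, hv⟩ := toHpT_add p ⟨u, hu⟩ ⟨v, hv⟩
    rw [h]
    exact Submodule.add_mem _ hu' hv'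
  | smul q u _ hu =>
    obtain ⟨hu, hu'⟩ := hu
    refine ⟨Submodule.smul_mem _ q hu, ?_⟩
    have h : toHpT p (⟨q • u, Submodule.smul_mem _ q hu⟩ : HQ K n) =
      (q : ℚ_[p]) • toHpT p ⟨u, hu⟩ := toHpT_smul p q ⟨u, hu⟩
    rw [h]
    exact Submodule.smul_mem _ _ hu'

end span

end

end Pool.Agent.TPR.Tt
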