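import Pool.Agent.Lib.GG.Hodge
import Pool.Agent.Lib.TPR.Defs
import Pool.Agent.Lib.TPR.Tt

/-!
# TateProducts, row TENDO: the products are eigenvectors of the reflex norms (helper60)
-/

set_option autoImplicit false

open scoped ComplexConjugate Matrix
open Complex Pool.Agent.CMN Pool.Agent.HCM Pool.Agent.RAT Pool.Agent.GG

namespace Pool.Agent.TPR

noncomputable section

namespace EndoA

variable {ι : Type} {K : ι → Type} [∀ i, Field (K i)]
variable {S Λ : Type} {M G : S → Type} [Fintype Λ]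

/-- the factor of a letter -/
def ch (q : ℚ) (z : ∀ i, K i) (y : Lt M G K) : ℂ := Sum.elim (fun _ => (q : ℂ)) (fun s => s.2 (z s.1)) y

/-- A product of ball classes is an eigenvector of the reflex norms. -/
lemma ball_val [∀ i, NumberField (K i)] {E : Type} [Field E] [NumberField E] [IsGalois ℚ E]
    {Φ : ∀ i, Set (K i →+* ℂ)} {j : ∀ i, K i →+* E} {τ₀ : E →+* ℂ} {c : ℕ}
    {v : (Two c → Idx K) → ℂ}
    (hv : (c = 0 ∧ ∃ q : ℚ, ∀ t, v t = q) ∨ (0 < c ∧ IsBallQ Φ v)) (x : E) (z : ∀ i, K i)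
    (hz : IsReflexNorm Φ j τ₀ x z) (s : Two c → Idx K) (hs : v s ≠ 0) :
    ∏ a, (s a).2 (z (s a).1) = ((Algebra.norm ℚ x : ℚ) : ℂ) ^ c := by
  rcases hv with ⟨rfl, -⟩ | ⟨-, hv⟩
  · have : IsEmpty (Two 0) := inferInstanceAs (IsEmpty (Fin 0 ⊕ Fin 0))
    simp
  · have h1 : v ∈ HQ K c := by
      refine Submodule.span_induction (p := fun v _ => v ∈ HQ K c) ?_ ?_ ?_ ?_ hv
      · rintro _ ⟨h, -⟩
        exact h
      · exact Submodule.zero_mem _
      · intro f g _ _ hf hg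
        exact Submodule.add_mem _ hf hg
      · intro r f _ hf
        exact Submodule.smul_mem _ r hf
    have h2 : IsHodge Φ v := by
      refine Submodule.span_induction (p := fun v _ => IsHodge Φ v) ?_ ?_ ?_ ?_ hv
      · rintro _ ⟨-, v', h, rfl⟩ t ht
        rw [Pi.smul_apply, isHodge_of_mem (Submodule.subset_span h) t ht, smul_zero]
      · intro t _
        rfl
      · intro f g _ _ hf hg t ht
        rw [Pi.add_apply, hf t ht, hg t ht, add_zero]
      · intro r f _ hf t ht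
        rw [Pi.smul_apply, hf t ht, smul_zero]
    have h3 := congrArg (fun w : HQ K c => (w : (Two c → Idx K) → ℂ) s)
      (Tt.endo_of_hodge Φ j τ₀ ⟨v, h1⟩ h2 x z hz)
    change (∏ a, (s a).2 (z (s a).1)) * v s = ((Algebra.norm ℚ x) ^ c : ℚ) • v s at h3
    rw [Rat.smul_def, Rat.cast_pow] at h3
    exact mul_right_cancel₀ hs h3

/-- The classes of `A` live on the words in the letters of `A`. -/
lemma HA_val {b : Λ → Crd M G → ℂ} {T : Type} [Fintype T] [DecidableEq T]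
    {d : (T → Lt M G K) → ℂ} (hd : d ∈ HA K b T) {t : T → Lt M G K} (ht : d t ≠ 0) (a : T) :
    (t a).isLeft = true := by
  by_contra h
  apply ht
  refine Submodule.span_induction (p := fun (d : (T → Lt M G K) → ℂ) _ => d t = 0) ?_ ?_ ?_ ?_ hd
  · rintro _ ⟨x, rfl⟩
    unfold torX
    apply Matrix.det_eq_zero_of_row_eq_zero a
    intro c
    rcases h1 : t a with y | s
    · rw [h1] at h; simp at h
    · simp [Matrix.of_apply, h1, per]
  · rfl
  · intro f g _ _ hf hg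
    rw [Pi.add_apply, hf, hg, add_zero]
  · intro r f _ hf
    rw [Pi.smul_apply, hf, smul_zero]

lemma extB_val {T : Type} {v : (T → Idx K) → ℂ} {t : T → Lt M G K} (h : extB v t ≠ 0) :
    ∃ s : T → Idx K, (∀ a, t a = Sum.inr (s a)) ∧ v s ≠ 0 := by
  unfold extB at h
  split_ifs at h with h1
  · exact ⟨fun i => (t i).getRight (h1 i), fun a => by simp, h⟩
  · exact absurd rfl h

/-- **Row TENDO**, for one product. -/
theorem endo_prod [∀ i, NumberField (K i)] {E : Type} [Field E] [NumberField E] [IsGalois ℚ E]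
    {Φ : ∀ i, Set (K i →+* ℂ)} {j : ∀ i, K i →+* E} {τ₀ : E →+* ℂ} {b : Λ → Crd M G → ℂ}
    {n a c : ℕ} (e : Fin (2 * a) ⊕ Two c ≃ Fin (2 * n)) {d : (Fin (2 * a) → Lt M G K) → ℂ}
    (hd : d ∈ HA K b (Fin (2 * a))) {v : (Two c → Idx K) → ℂ}
    (hv : (c = 0 ∧ ∃ q : ℚ, ∀ t, v t = q) ∨ (0 < c ∧ IsBallQ Φ v)) (x : E) (z : ∀ i, K i)
    (hz : IsReflexNorm Φ j τ₀ x z) (t : Fin (2 * n) → Lt M G K) :
    (∏ i, ch (Algebra.norm ℚ x) (fun i => z i ^ 2) (t i)) *
      alt (fun t => d (fun i => t (e (Sum.inl i))) * extB v (fun i => t (e (Sum.inr i)))) t =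
    ((Algebra.norm ℚ x : ℚ) : ℂ) ^ (2 * n) *
      alt (fun t => d (fun i => t (e (Sum.inl i))) * extB v (fun i => t (e (Sum.inr i)))) t := by
  unfold alt
  rw [Finset.mul_sum, Finset.mul_sum]
  refine Finset.sum_congr rfl fun σ _ => ?_
  have h1 : ∏ i, ch (Algebra.norm ℚ x) (fun i => z i ^ 2) (t i) =
      ∏ i, ch (Algebra.norm ℚ x) (fun i => z i ^ 2) ((t ∘ σ) i) :=
    (Equiv.prod_comp σ fun i => ch (Algebra.norm ℚ x) (fun i => z i ^ 2) (t i)).symm
  rw [h1]
  generalize t ∘ σ = t'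
  rw [mul_left_comm, mul_left_comm _ (((Equiv.Perm.sign σ : ℤ) : ℂ))]
  congr 1
  beta_reduce
  by_cases h2 : d (fun i => t' (e (Sum.inl i))) = 0
  · rw [h2, zero_mul, mul_zero, mul_zero]
  by_cases h3 : extB v (fun i => t' (e (Sum.inr i))) = 0
  · rw [h3, mul_zero, mul_zero, mul_zero]
  congr 1
  obtain ⟨s, hs, hvs⟩ := extB_val h3
  rw [← Equiv.prod_comp e, Fintype.prod_sum_type]
  have h4 : ∀ i, ch (Algebra.norm ℚ x) (fun i => z i ^ 2) (t' (e (Sum.inl i))) =
      ((Algebra.norm ℚ x : ℚ) : ℂ) := by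
    intro i
    have h5 := HA_val hd h2 i
    rcases h6 : t' (e (Sum.inl i)) with y | s'
    · rfl
    · rw [h6] at h5; simp at h5
  have h5 : ∀ i, ch (Algebra.norm ℚ x) (fun i => z i ^ 2) (t' (e (Sum.inr i))) =
      ((s i).2 (z (s i).1)) ^ 2 := by
    intro i
    rw [hs i]
    simp [ch]
  simp_rw [h4, h5]
  rw [Finset.prod_pow, ball_val hv x z hz s hvs, Finset.prod_const, Finset.card_univ,
    Fintype.card_fin, ← pow_mul, ← pow_add]
  congr 1
  have h6 := Fintype.card_congr e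
  rw [Fintype.card_sum, Fintype.card_fin, Fintype.card_fin] at h6
  have h7 : Fintype.card (Two c) = c + c := by
    change Fintype.card (Fin c ⊕ Fin c) = c + c
    simp
  omega

end EndoA

/-- **Row TENDO.** -/
theorem tendo {S Λ : Type} {M G : S → Type} [Fintype Λ] [Fintype S] [∀ s, Fintype (M s)]
    [∀ s, Fintype (G s)] {ι : Type} {K : ι → Type} [∀ i, Field (K i)] [∀ i, NumberField (K i)]
    {E : Type} [Field E] [NumberField E] [IsGalois ℚ E] {Φ : ∀ i, Set (K i →+* ℂ)}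
    {j : ∀ i, K i →+* E} {τ₀ : E →+* ℂ} {b : Λ → Crd M G → ℂ} {n : ℕ}
    {w : (Fin (2 * n) → Lt M G K) → ℂ} (h : IsProdD b Φ n w) (x : E) (z : ∀ i, K i)
    (hz : IsReflexNorm Φ j τ₀ x z) :
    mulF (Algebra.norm ℚ x) (fun i => z i ^ 2) w = (Algebra.norm ℚ x) ^ (2 * n) • w := by
  obtain ⟨a, c, e, d, v, -, ⟨hd, -⟩, hv, rfl⟩ := h
  funext t
  have h1 := EndoA.endo_prod e hd hv x z hz t
  rw [mulF_apply, Pi.smul_apply, Rat.smul_def, Rat.cast_pow]
  exact h1

end

end Pool.Agent.TPR
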