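import Pool.Agent.Lib.GG.Fin
import Pool.Agent.Lib.GG.GlieB
import Pool.Agent.Lib.TPR.Defs

/-!
# TateProducts, rows TLIE, TBAL, TKILL: the Hodge Lie algebra and balanced words (helper89)
-/

set_option autoImplicit false
set_option linter.unusedSectionVars false

open scoped ComplexConjugate Matrix
open Complex Pool.Agent.HCM Pool.Agent.RAT Pool.Agent.GG Pool.Agent.GG.Glie

namespace Pool.Agent.TPR

noncomputable section

namespace LieX

section main

variable {S Λ : Type} [Fintype S] [Fintype Λ] {M G : S → Type} [∀ s, Fintype (M s)]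
  [∀ s, Fintype (G s)]

/-- `hM` is a combination, with `ℚ`-independent coefficients, of rational matrices, and these are in
every rational Lie algebra which contains the Hodge structure. -/
theorem exists_expa (b : Module.Basis Λ ℝ (Crd M G → ℂ)) :
    ∃ (n : ℕ) (c : Fin n → ℂ) (X : Fin n → Matrix Λ Λ ℚ) (Z : Fin n → Matrix (AL M G) (AL M G) ℂ),
      LinearIndependent ℚ c ∧ (∀ k, IsRep b (X k) (Z k)) ∧
      (hM : Matrix (AL M G) (AL M G) ℂ) = ∑ k, c k • Z k ∧
      ∀ 𝔪 : Submodule ℚ (Matrix Λ Λ ℚ),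
        (hM : Matrix (AL M G) (AL M G) ℂ) ∈ Submodule.span ℂ {Z | ∃ X ∈ 𝔪, IsRep b X Z} →
        ∀ k, X k ∈ 𝔪 := by
  classical
  obtain ⟨N', h1, h2⟩ := exists_inv b
  obtain ⟨n, c, v, hc, hv, he⟩ := expa _ _ _ (mem_span_rho h2 (hM : Matrix (AL M G) (AL M G) ℂ))
  choose X hX hXv using hv
  refine ⟨n, c, X, v, hc, ?_, he, ?_⟩
  · intro k
    rw [Glie.isRep_iff, ← hXv k]
    exact (rho_N h1 (X k)).symm
  · intro 𝔪 h3 k
    rw [set_eq h1 h2] at h3
    obtain ⟨n', c', v', hc', hv', he'⟩ := expa _ _ _ h3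
    choose X' hX' hXv' using hv'
    -- compare the two expansions with a linear form on the rational matrices
    by_contra hk
    obtain ⟨φ, hφ, hφ2⟩ := Submodule.exists_le_ker_of_notMem hk
    have e1 : ∑ k, c k • rhoL b N' (X k) = ∑ k, c' k • rhoL b N' (X' k) := by
      simp only [hXv, hXv']
      rw [← he, ← he']
    have e2 : ∑ k, c k • rc (X k) = ∑ k, c' k • rc (X' k) := by
      have e3 := congrArg (fun W => N' * W * Nm (M := M) (G := G) b) e1
      simp only [Matrix.mul_sum, Matrix.sum_mul, Matrix.mul_smul, Matrix.smul_mul, rhoL_apply] at e3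
      have e4 : ∀ Y : Matrix Λ Λ ℚ, N' * (Nm (M := M) (G := G) b * rc Y * N') * Nm b = rc Y := by
        intro Y
        calc N' * (Nm (M := M) (G := G) b * rc Y * N') * Nm b =
            (N' * Nm b) * rc Y * (N' * Nm b) := by simp only [Matrix.mul_assoc]
          _ = rc Y := by rw [h1]; simp
      simpa only [e4] using e3
    -- entrywise
    have e5 : ∀ i j, ∑ k, (X k i j) • c k = ∑ k, (X' k i j) • c' k := by
      intro i j
      have := congrFun (congrFun e2 i) j
      simp only [Matrix.sum_apply, Matrix.smul_apply, rc_apply, smul_eq_mul] at this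
      simpa only [Rat.smul_def, mul_comm] using this
    have e6 : ∀ Y : Matrix Λ Λ ℚ, φ Y = ∑ i, ∑ j, Y i j * φ (Matrix.single i j 1) := by
      intro Y
      conv_lhs => rw [Matrix.matrix_eq_sum_single Y]
      rw [map_sum]
      refine Finset.sum_congr rfl fun i _ => ?_
      rw [map_sum]
      refine Finset.sum_congr rfl fun j _ => ?_
      have : Matrix.single i j (Y i j) = Y i j • Matrix.single i j (1 : ℚ) := by
        rw [Matrix.smul_single, smul_eq_mul, mul_one]
      rw [this, map_smul, smul_eq_mul]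
    have e7 : ∑ k, (φ (X k)) • c k = ∑ k, (φ (X' k)) • c' k := by
      have e8 : ∀ (m : ℕ) (d : Fin m → ℂ) (Y : Fin m → Matrix Λ Λ ℚ),
          ∑ k, (φ (Y k)) • d k = ∑ i, ∑ j, φ (Matrix.single i j 1) • ∑ k, (Y k i j) • d k := by
        intro m d Y
        simp only [Finset.smul_sum]
        rw [Finset.sum_congr rfl fun i _ => Finset.sum_comm, Finset.sum_comm]
        refine Finset.sum_congr rfl fun k _ => ?_
        rw [e6 (Y k), Finset.sum_smul]
        refine Finset.sum_congr rfl fun i _ => ?_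
        rw [Finset.sum_smul]
        refine Finset.sum_congr rfl fun j _ => ?_
        rw [smul_smul, mul_comm]
      rw [e8, e8]
      refine Finset.sum_congr rfl fun i _ => Finset.sum_congr rfl fun j _ => ?_
      rw [e5]
    have e9 : ∑ k, (φ (X' k)) • c' k = 0 := by
      refine Finset.sum_eq_zero fun k _ => ?_
      rw [show φ (X' k) = 0 from hφ2 (hX' k), zero_smul]
    rw [e9] at e7
    exact hφ (Fintype.linearIndependent_iff.1 hc (fun k => φ (X k)) e7 k)

variable {ι : Type} {K : ι → Type} [∀ i, Field (K i)] {T : Type} [Fintype T] [DecidableEq T]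

theorem lieF_addZ (Z Z' : Matrix (AL M G) (AL M G) ℂ) (u : (T → Lt M G K) → ℂ) :
    lieF (Z + Z') u = lieF Z u + lieF Z' u := by
  funext t
  rw [Pi.add_apply, lieF_apply, lieF_apply, lieF_apply, ← Finset.sum_add_distrib]
  refine Finset.sum_congr rfl fun a _ => ?_
  cases t a with
  | inl y => simp [add_mul, Finset.sum_add_distrib]
  | inr q => simp

theorem lieF_smulZ (c : ℂ) (Z : Matrix (AL M G) (AL M G) ℂ) (u : (T → Lt M G K) → ℂ) :
    lieF (c • Z) u = c • lieF Z u := by
  funext t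
  rw [Pi.smul_apply, lieF_apply, lieF_apply, smul_eq_mul, Finset.mul_sum]
  refine Finset.sum_congr rfl fun a _ => ?_
  cases t a with
  | inl y =>
    simp only [Sum.elim_inl, Matrix.smul_apply, smul_eq_mul, Finset.mul_sum]
    exact Finset.sum_congr rfl fun y' _ => by ring
  | inr q => simp

/-- `lieF` is linear in the matrix -/
def lieZ (u : (T → Lt M G K) → ℂ) : Matrix (AL M G) (AL M G) ℂ →ₗ[ℂ] ((T → Lt M G K) → ℂ) where
  toFun Z := lieF Z u
  map_add' Z Z' := lieF_addZ Z Z' u
  map_smul' c Z := lieF_smulZ c Z u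

theorem lieZ_apply (u : (T → Lt M G K) → ℂ) (Z : Matrix (AL M G) (AL M G) ℂ) :
    lieZ u Z = lieF Z u := rfl

theorem lieF_hM (u : (T → Lt M G K) → ℂ) (t : T → Lt M G K) :
    lieF (hM : Matrix (AL M G) (AL M G) ℂ) u t = ((nAT t : ℂ) - nAF t) * u t := by
  classical
  have h1 : ∀ (a : T), Sum.elim (fun y => ∑ y', (hM : Matrix (AL M G) (AL M G) ℂ) y y' *
      u (Function.update t a (Sum.inl y'))) (fun _ => 0) (t a) =
      ((if ∃ p, t a = Sum.inl (p, true) then 1 else 0) -
        (if ∃ p, t a = Sum.inl (p, false) then 1 else 0)) * u t := by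
    intro a
    rcases ht : t a with ⟨p, c⟩ | q
    · rw [Sum.elim_inl, Finset.sum_eq_single (p, c)]
      · have hu : Function.update t a (Sum.inl (p, c)) = t := by
          rw [← ht]
          exact Function.update_eq_self a t
        rw [hu, hM, Matrix.diagonal_apply_eq]
        cases c <;> simp
      · intro y' _ hy
        rw [hM, Matrix.diagonal_apply_ne _ hy.symm, zero_mul]
      · intro h
        exact absurd (Finset.mem_univ _) h
    · simp
  rw [lieF_apply, Finset.sum_congr rfl fun a _ => h1 a, ← Finset.sum_mul,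
    Finset.sum_sub_distrib]
  congr 2
  · unfold nAT
    rw [Set.ncard_eq_toFinset_card', Finset.sum_boole]
    congr 2
    ext i
    simp
  · unfold nAF
    rw [Set.ncard_eq_toFinset_card', Finset.sum_boole]
    congr 2
    ext i
    simp

end main

end LieX

open LieX

variable {S Λ : Type} [Fintype S] [Fintype Λ] {M G : S → Type} [∀ s, Fintype (M s)]
  [∀ s, Fintype (G s)]

/-- **TLIE** -/
theorem tlie (b : Module.Basis Λ ℝ (Crd M G → ℂ)) : (hM : Matrix (AL M G) (AL M G) ℂ) ∈
    Submodule.span ℂ {Z | ∃ X ∈ hodgeLie (M := M) (G := G) b, IsRep b X Z} := by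
  obtain ⟨n, c, X, Z, -, hr, he, h𝔪⟩ := exists_expa (M := M) (G := G) b
  rw [he]
  refine Submodule.sum_mem _ fun k _ => Submodule.smul_mem _ _ (Submodule.subset_span ?_)
  exact ⟨X k, Submodule.mem_sInf.2 fun 𝔪 h => h𝔪 𝔪 h.2 k, hr k⟩

variable {ι : Type} {K : ι → Type} [∀ i, Field (K i)] {T : Type} [Fintype T] [DecidableEq T]

/-- **TBAL**: the functions killed by the Hodge Lie algebra are supported on the words with as many
letters `dz_p` as `conj dz_p`. -/
theorem tbal_of (b : Module.Basis Λ ℝ (Crd M G → ℂ)) (u : (T → Lt M G K) → ℂ)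
    (h : ∀ X ∈ hodgeLie (M := M) (G := G) b, ∀ Z, IsRep b X Z → lieF Z u = 0) (t : T → Lt M G K)
    (ht : u t ≠ 0) : nAT t = nAF t := by
  have h1 : Submodule.span ℂ {Z | ∃ X ∈ hodgeLie (M := M) (G := G) b, IsRep b X Z} ≤
      LinearMap.ker (lieZ u) := by
    rw [Submodule.span_le]
    rintro Z ⟨X, hX, hZ⟩
    exact h X hX Z hZ
  have h3 : lieF (hM : Matrix (AL M G) (AL M G) ℂ) u t = 0 := congrFun (h1 (tlie b)) t
  rw [lieF_hM] at h3
  exact_mod_cast sub_eq_zero.1 ((mul_eq_zero.1 h3).resolve_right ht)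

theorem tbal (b : Module.Basis Λ ℝ (Crd M G → ℂ)) (u : (T → Lt M G K) → ℂ) (_ : u ∈ HX K b T)
    (h : ∀ X ∈ hodgeLie (M := M) (G := G) b, ∀ Z, IsRep b X Z → lieF Z u = 0) :
    ∀ t, u t ≠ 0 → nAT t = nAF t := tbal_of b u h

theorem LieX.lieF_eq_der [Fintype (Idx K)] (Z : Matrix (AL M G) (AL M G) ℂ)
    (u : (T → Lt M G K) → ℂ) : lieF Z u = der Finset.univ (Matrix.fromBlocks Z 0 0 0) u := by
  classical
  funext t
  rw [lieF_apply]
  unfold der
  refine Finset.sum_congr rfl fun a _ => ?_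
  rw [Fintype.sum_sum_type]
  rcases t a with y | q
  · simp
  · simp

/-- **TKILL**: a rational class supported on the words with as many letters `dz_p` as `conj dz_p` is
killed by the Hodge Lie algebra. -/
theorem tkill [Finite ι] [∀ i, NumberField (K i)] (b : Module.Basis Λ ℝ (Crd M G → ℂ))
    (u : (T → Lt M G K) → ℂ) (hu : u ∈ HX K b T) (hb : ∀ t, u t ≠ 0 → nAT t = nAF t) :
    ∀ X ∈ hodgeLie (M := M) (G := G) b, ∀ Z, IsRep b X Z → lieF Z u = 0 := by
  classical
  have : Fintype (Idx K) := Fintype.ofFinite _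
  obtain ⟨n, c, X, Z, hc, hr, he, -⟩ := exists_expa (M := M) (G := G) b
  have hW : QInd (RTn (per (M := M) (G := G) (K := K) b) (Finset.univ : Finset T)) :=
    perqF T (Lt M G K) (Lp Λ K) _ _ (perx S Λ M G b ι K)
  have hXW : HX (M := M) (G := G) K b T ≤ RTn (per b) Finset.univ := hxr S Λ M G b ι K T
  have hZ : ∀ k, lieF (Z k) u = 0 := by
    intro k
    have h1 := desc _ _ ⊥ hW bot_le n c (fun k => lieF (Z k) u) hc
      (fun k => hXW (lieF_mem (hr k) hu)) ?_ k
    · exact (Submodule.mem_bot ℚ).1 h1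
    · have h2 : ∑ k, c k • lieF (Z k) u = lieF (hM : Matrix (AL M G) (AL M G) ℂ) u := by
        rw [he, ← lieZ_apply, map_sum]
        refine Finset.sum_congr rfl fun k _ => ?_
        rw [map_smul, lieZ_apply]
      have h3 : lieF (hM : Matrix (AL M G) (AL M G) ℂ) u = 0 := by
        funext t
        rw [lieF_hM, Pi.zero_apply]
        by_cases h0 : u t = 0
        · rw [h0, mul_zero]
        · rw [hb t h0, sub_self, zero_mul]
      rw [h2, h3]
      exact Submodule.zero_mem _
  have huniq : ∀ (X : Matrix Λ Λ ℚ) (Z Z' : Matrix (AL M G) (AL M G) ℂ), IsRep b X Z →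
      IsRep b X Z' → Z = Z' := fun X Z Z' h h' => ((rowREPS S Λ M G b).2 X).unique h h'
  have hex : ∀ X : Matrix Λ Λ ℚ, ∃ Z : Matrix (AL M G) (AL M G) ℂ, IsRep b X Z := fun X =>
    ((rowREPS S Λ M G b).2 X).exists
  let 𝔪 : Submodule ℚ (Matrix Λ Λ ℚ) :=
    { carrier := {X | ∀ Z : Matrix (AL M G) (AL M G) ℂ, IsRep b X Z → lieF Z u = 0}
      add_mem' := by
        intro X X' h h' Z hZ
        obtain ⟨Z1, h1⟩ := hex X
        obtain ⟨Z2, h2⟩ := hex X'
        rw [huniq _ _ _ hZ (Stab.isRep_add h1 h2), lieF_addZ, h Z1 h1, h' Z2 h2, add_zero]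
      zero_mem' := by
        intro Z hZ
        rw [huniq _ _ _ hZ Stab.isRep_zero, ← lieZ_apply, map_zero]
      smul_mem' := by
        intro q X h Z hZ
        obtain ⟨Z1, h1⟩ := hex X
        rw [huniq _ _ _ hZ (Stab.isRep_smul q h1), lieF_smulZ, h Z1 h1, smul_zero] }
  have h𝔪 : hodgeLie (M := M) (G := G) b ≤ 𝔪 := by
    refine sInf_le ⟨?_, ?_⟩
    · intro X h X' h' Z hZ
      obtain ⟨Z1, h1⟩ := hex X
      obtain ⟨Z2, h2⟩ := hex X'
      have h3 : IsRep b (X * X' - X' * X) (Z1 * Z2 - Z2 * Z1) := by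
        have h4 := Stab.isRep_add (Stab.isRep_mul h1 h2)
          (Stab.isRep_smul (-1) (Stab.isRep_mul h2 h1))
        have e1 : X * X' + (-1 : ℚ) • (X' * X) = X * X' - X' * X := by
          rw [neg_one_smul, sub_eq_add_neg]
        have e2 : Z1 * Z2 + ((-1 : ℚ) : ℂ) • (Z2 * Z1) = Z1 * Z2 - Z2 * Z1 := by
          rw [Rat.cast_neg, Rat.cast_one, neg_one_smul, sub_eq_add_neg]
        rwa [e1, e2] at h4
      rw [huniq _ _ _ hZ h3, lieF_eq_der]
      have h5 : (Matrix.fromBlocks (Z1 * Z2 - Z2 * Z1) 0 0 0 : Matrix (Lt M G K) (Lt M G K) ℂ) =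
          Matrix.fromBlocks Z1 0 0 0 * Matrix.fromBlocks Z2 0 0 0 -
          Matrix.fromBlocks Z2 0 0 0 * Matrix.fromBlocks Z1 0 0 0 := by
        ext p p'
        rw [Matrix.sub_apply, Matrix.mul_apply, Matrix.mul_apply, Fintype.sum_sum_type,
          Fintype.sum_sum_type]
        rcases p with p | p <;> rcases p' with p' | p' <;> simp [Matrix.mul_apply]
      rw [h5, ← Stab.der_comm, ← lieF_eq_der, ← lieF_eq_der, ← lieF_eq_der, ← lieF_eq_der,
        h Z1 h1, h' Z2 h2, map_zero, map_zero, sub_zero]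
    · rw [he]
      refine Submodule.sum_mem _ fun k _ => Submodule.smul_mem _ _ (Submodule.subset_span ?_)
      refine ⟨X k, ?_, hr k⟩
      intro Z' hZ'
      rw [huniq _ _ _ hZ' (hr k)]
      exact hZ k
  intro X hX Z hZ
  exact h𝔪 hX Z hZ

end

end Pool.Agent.TPR
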