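import Pool.Agent.Lib.TPR.FinC
import Pool.Agent.Lib.TPR.Lie

/-!
# The Tate conjecture for `A × B`, `B` of CM type (helper79)
-/

set_option autoImplicit false

open scoped ComplexConjugate Matrix TensorProduct
open Complex Pool.Agent.HCM Pool.Agent.RAT Pool.Agent.GG

namespace Pool.Agent.TPR

noncomputable section

/-- `A` any complex torus: the Tate classes on `A × B` are the combinations of the products of a
rational Hodge class of `A` and of a class of maps from ball quotients to `B`. -/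
theorem tateX (p : ℕ) [Fact p.Prime] (n : ℕ) (S Λ : Type) [Fintype S] [Fintype Λ]
    (M G : S → Type) [∀ s, Fintype (M s)] [∀ s, Fintype (G s)]
    (b : Module.Basis Λ ℝ (Crd M G → ℂ)) (ι : Type) [Finite ι] (K : ι → Type)
    [∀ i, Field (K i)] [∀ i, NumberField (K i)] [∀ i, NumberField.IsCMField (K i)]
    (Φ : ∀ i, Set (K i →+* ℂ)) (hΦ : ∀ i, IsCMType (Φ i))
    (E : Type) [Field E] [NumberField E] [IsGalois ℚ E] (j : ∀ i, K i →+* E) (τ₀ : E →+* ℂ)
    (c : HCp p K b n) :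
    IsTateX p b Φ j τ₀ c ↔
      c ∈ Submodule.span ℚ_[p] (RatP p (IsProdD b Φ n) : Set (HCp p K b n)) :=
  TFINx.tate_of_rows (fun _ _ _ _ _ _ _ _ b _ _ _ _ _ _ u hu h => tbal b u hu h)
    (fun _ _ _ _ _ _ _ _ b _ _ _ _ _ _ u hu h => tkill b u hu h)
    (fun _ _ _ _ _ _ Φ _ t => (card_letters Φ t).trans (by simp))
    (fun _ _ _ _ _ _ _ _ _ _ _ _ _ _ _ _ hw => dB_of_isProdD hw)
    p n S Λ M G b ι K Φ hΦ E j τ₀ c

/-- `A` of symplectic or `GL₂`-type: the Tate classes on `A × B` are the combinations of the products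
of divisor classes of `A` and of a class of maps from ball quotients to `B`. -/
theorem tateXC (p : ℕ) [Fact p.Prime] (n : ℕ) (S Λ : Type) [Fintype S] [Fintype Λ]
    (M G : S → Type) [∀ s, Fintype (M s)] [∀ s, Fintype (G s)]
    (b : Module.Basis Λ ℝ (Crd M G → ℂ)) (ι : Type) [Finite ι] (K : ι → Type)
    [∀ i, Field (K i)] [∀ i, NumberField (K i)] [∀ i, NumberField.IsCMField (K i)]
    (Φ : ∀ i, Set (K i →+* ℂ)) (hΦ : ∀ i, IsCMType (Φ i)) (hA : IsSymp b ∨ IsGL2 b)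
    (E : Type) [Field E] [NumberField E] [IsGalois ℚ E] (j : ∀ i, K i →+* E) (τ₀ : E →+* ℂ)
    (c : HCp p K b n) :
    IsTateX p b Φ j τ₀ c ↔
      c ∈ Submodule.span ℚ_[p] (RatP p (IsProdC b Φ n) : Set (HCp p K b n)) :=
  TFINx.tateC_of_rows (fun _ _ _ _ _ _ _ _ b _ _ _ _ _ _ u hu h => tbal b u hu h)
    (fun _ _ _ _ _ _ _ _ b _ _ _ _ _ _ u hu h => tkill b u hu h)
    p n S Λ M G b ι K Φ hΦ hA E j τ₀ c

end

end Pool.Agent.TPR
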