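import Pool.Agent.Lib.TPR.Defs
import Pool.Agent.Lib.TPR.Tt
import Pool.Agent.Lib.GG.Hodge

/-!
# TateProducts: coordinates over `ℚ_p` (helper79)
-/

set_option autoImplicit false

open scoped ComplexConjugate Matrix TensorProduct
open Complex Pool.Agent.HCM Pool.Agent.RAT Pool.Agent.GG

namespace Pool.Agent.TPR

noncomputable section

namespace TFINx

variable {S Λ : Type} {M G : S → Type} [Fintype Λ] [Fintype S] [∀ s, Fintype (M s)]
  [∀ s, Fintype (G s)] {ι : Type} {K : ι → Type} [∀ i, Field (K i)] {n : ℕ}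

section space

variable (p : ℕ) [Fact p.Prime] {b : Λ → Crd M G → ℂ}

/-- the coordinates of a `p`-adic class -/
def crd (c : HCp p K b n) : Module.Basis.ofVectorSpaceIndex ℚ ℚ_[p] →₀ HC K b n :=
  Tt.coord (L := ℚ_[p]) (M := HC K b n) (Module.Basis.ofVectorSpace ℚ ℚ_[p]) c

theorem crd_sum (c : HCp p K b n) : c = ∑ k ∈ (crd p c).support,
    (Module.Basis.ofVectorSpace ℚ ℚ_[p]) k • toHCp p (crd p c k) := by
  have h1 := Tt.coord_sum (L := ℚ_[p]) (M := HC K b n) (Module.Basis.ofVectorSpace ℚ ℚ_[p]) c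
  refine h1.trans (Finset.sum_congr rfl fun k _ => ?_)
  change (Module.Basis.ofVectorSpace ℚ ℚ_[p]) k ⊗ₜ[ℚ] crd p c k =
    (Module.Basis.ofVectorSpace ℚ ℚ_[p]) k • ((1 : ℚ_[p]) ⊗ₜ[ℚ] crd p c k)
  rw [TensorProduct.smul_tmul', smul_eq_mul, mul_one]

theorem crd_lie {X : Matrix Λ Λ ℚ} {Z : Matrix (AL M G) (AL M G) ℂ} (h : IsRep b X Z)
    (c : HCp p K b n) (hc : lieP p h c = 0) (k) : lieF Z (crd p c k).fn = 0 := by
  have h1 := congrArg (fun w => crd p w k) hc
  have h2 : crd p (lieP p h c) k = lieH h (crd p c k) :=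
    Tt.coord_baseChange (L := ℚ_[p]) (M := HC K b n) _ (lieH h) c k
  have h3 : crd p (0 : HCp p K b n) k = 0 := by
    unfold crd Tt.coord
    exact (congrArg (fun f : _ →₀ HC K b n => f k) (map_zero _)).trans rfl
  have h4 : lieH h (crd p c k) = 0 := by
    rw [← h2]
    exact h1.trans h3
  exact congrArg HC.fn h4

theorem crd_mul (N q : ℚ) (z : ∀ i, K i) (c : HCp p K b n)
    (hc : mulP p b N z c = (q : ℚ_[p]) • c) (k) :
    mulF N z (crd p c k).fn = q • (crd p c k).fn := by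
  have h1 := congrArg (fun w => crd p w k) hc
  have h2 : crd p (mulP p b N z c) k = mulH b N z (crd p c k) :=
    Tt.coord_baseChange (L := ℚ_[p]) (M := HC K b n) _ (mulH b N z) c k
  have h3 : crd p ((q : ℚ_[p]) • c) k = q • crd p c k :=
    Tt.coord_smul (L := ℚ_[p]) (M := HC K b n) _ q c k
  have h4 : mulH b N z (crd p c k) = q • crd p c k := by
    rw [← h2, ← h3]
    exact h1
  exact congrArg HC.fn h4

theorem toHCp_add (u v : HC K b n) : toHCp p (u + v) = toHCp p u + toHCp p v :=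
  TensorProduct.tmul_add _ _ _

theorem toHCp_zero : toHCp p (0 : HC K b n) = 0 := TensorProduct.tmul_zero _ _

theorem toHCp_smul (q : ℚ) (u : HC K b n) : toHCp p (q • u) = (q : ℚ_[p]) • toHCp p u :=
  Tt.tmul_cast_smul p q u

theorem lieP_toHCp {X : Matrix Λ Λ ℚ} {Z : Matrix (AL M G) (AL M G) ℂ} (h : IsRep b X Z)
    (u : HC K b n) : lieP p h (toHCp p u) = toHCp p (lieH h u) :=
  LinearMap.baseChange_tmul ..

theorem mulP_toHCp (N : ℚ) (z : ∀ i, K i) (u : HC K b n) :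
    mulP p b N z (toHCp p u) = toHCp p (mulH b N z u) :=
  LinearMap.baseChange_tmul ..

theorem toHCp_mem (P : ((Fin (2 * n) → Lt M G K) → ℂ) → Prop)
    (hP : ∀ w, P w → w ∈ HX K b (Fin (2 * n))) (w : (Fin (2 * n) → Lt M G K) → ℂ)
    (hw : w ∈ Submodule.span ℚ {w | P w}) :
    ∃ h : w ∈ HX K b (Fin (2 * n)), toHCp p (⟨w, h⟩ : HC K b n) ∈
      Submodule.span ℚ_[p] (RatP p P : Set (HCp p K b n)) := by
  induction hw using Submodule.span_induction with
  | mem w hw => exact ⟨hP w hw, Submodule.subset_span ⟨⟨w, hP w hw⟩, hw, rfl⟩⟩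
  | zero =>
    refine ⟨Submodule.zero_mem _, ?_⟩
    have h : toHCp p (⟨0, Submodule.zero_mem _⟩ : HC K b n) = 0 := toHCp_zero p
    rw [h]
    exact Submodule.zero_mem _
  | add u v _ _ hu hv =>
    obtain ⟨hu, hu'⟩ := hu
    obtain ⟨hv, hv'⟩ := hv
    refine ⟨Submodule.add_mem _ hu hv, ?_⟩
    have h : toHCp p (⟨u + v, Submodule.add_mem _ hu hv⟩ : HC K b n) =
      toHCp p ⟨u, hu⟩ + toHCp p ⟨v, hv⟩ := toHCp_add p ⟨u, hu⟩ ⟨v, hv⟩
    rw [h]
    exact Submodule.add_mem _ hu' hv'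
  | smul q u _ hu =>
    obtain ⟨hu, hu'⟩ := hu
    refine ⟨Submodule.smul_mem _ q hu, ?_⟩
    have h : toHCp p (⟨q • u, Submodule.smul_mem _ q hu⟩ : HC K b n) =
      (q : ℚ_[p]) • toHCp p ⟨u, hu⟩ := toHCp_smul p q ⟨u, hu⟩
    rw [h]
    exact Submodule.smul_mem _ _ hu'

end space

/-- **From rational classes to `p`-adic classes.** -/
theorem tate_iff {E : Type} [Field E] [NumberField E] [IsGalois ℚ E]
    (p : ℕ) [Fact p.Prime] (b : Λ → Crd M G → ℂ)
    (Φ : ∀ i, Set (K i →+* ℂ)) (j : ∀ i, K i →+* E) (τ₀ : E →+* ℂ)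
    (hBAL : ∀ u ∈ HX K b (Fin (2 * n)),
      (∀ X ∈ hodgeLie b, ∀ Z : Matrix (AL M G) (AL M G) ℂ, IsRep b X Z → lieF Z u = 0) →
        ∀ t, u t ≠ 0 → nAT t = nAF t)
    (hKILL : ∀ u ∈ HX K b (Fin (2 * n)), (∀ t, u t ≠ 0 → nAT t = nAF t) →
      ∀ X ∈ hodgeLie b, ∀ Z : Matrix (AL M G) (AL M G) ℂ, IsRep b X Z → lieF Z u = 0)
    (hTOR : ∀ N : ℕ, 0 < N → ∀ u : (Fin (2 * n) → Lt M G K) → ℂ,
      (∀ y : E, IsIntegral ℤ y → ∀ z : ∀ i, K i, IsReflexNorm Φ j τ₀ (1 + N * y) z →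
        mulF (Algebra.norm ℚ (1 + N * y)) (fun i => z i ^ 2) u =
          (Algebra.norm ℚ (1 + N * y)) ^ (2 * n) • u) →
        ∀ t, u t ≠ 0 → 2 * nBT Φ t + (nAT t + nAF t) = 2 * n)
    (hCNT : ∀ t : Fin (2 * n) → Lt M G K, nAT t + nAF t + nBT Φ t + nBF Φ t = 2 * n)
    (P : ((Fin (2 * n) → Lt M G K) → ℂ) → Prop) (hMEM : ∀ w, P w → w ∈ HX K b (Fin (2 * n)))
    (hSPL : ∀ u ∈ HX K b (Fin (2 * n)), DB Φ u → u ∈ Submodule.span ℚ {w | P w})
    (hDB : ∀ w, P w → DB Φ w)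
    (hENDO : ∀ w, P w → ∀ (x : E) (z : ∀ i, K i), IsReflexNorm Φ j τ₀ x z →
      mulF (Algebra.norm ℚ x) (fun i => z i ^ 2) w = (Algebra.norm ℚ x) ^ (2 * n) • w)
    (c : HCp p K b n) :
    IsTateX p b Φ j τ₀ c ↔ c ∈ Submodule.span ℚ_[p] (RatP p P : Set (HCp p K b n)) := by
  constructor
  · rintro ⟨h1, m, hm⟩
    rw [crd_sum p c]
    refine Submodule.sum_mem _ fun k _ => Submodule.smul_mem _ _ ?_
    have hu : (crd p c k).fn ∈ HX K b (Fin (2 * n)) := (crd p c k).2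
    have hA := hBAL _ hu fun X hX Z h => crd_lie p h c (h1 X hX Z h) k
    have hB := hTOR (p ^ m) (pow_pos (Nat.Prime.pos Fact.out) m) (crd p c k).fn (by
      intro y hy z hz
      have hz' : IsReflexNorm Φ j τ₀ (1 + (p : E) ^ m * y) z := by
        push_cast at hz
        exact hz
      have h2 := hm y hy z hz'
      have h3 := crd_mul p (Algebra.norm ℚ (1 + (p : E) ^ m * y))
        ((Algebra.norm ℚ (1 + (p : E) ^ m * y)) ^ (2 * n)) (fun i => z i ^ 2) c (by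
          rw [h2, Rat.cast_pow]) k
      push_cast
      exact h3)
    have hDBu : DB Φ (crd p c k).fn := by
      intro t ht
      by_contra h0
      have e1 := hA t h0
      have e2 := hB t h0
      have e3 := hCNT t
      exact ht ⟨e1, by omega⟩
    obtain ⟨h, h2⟩ := toHCp_mem p P hMEM _ (hSPL _ hu hDBu)
    exact h2
  · intro hc
    suffices h : (∀ X ∈ hodgeLie b, ∀ (Z : Matrix (AL M G) (AL M G) ℂ) (h : IsRep b X Z),
        lieP p h c = 0) ∧ ∀ (x : E) (z : ∀ i, K i), IsReflexNorm Φ j τ₀ x z →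
          mulP p b (Algebra.norm ℚ x) (fun i => z i ^ 2) c =
            ((Algebra.norm ℚ x : ℚ) : ℚ_[p]) ^ (2 * n) • c from
      ⟨h.1, 0, fun y _ z hz => h.2 _ z hz⟩
    induction hc using Submodule.span_induction with
    | mem c hc =>
      obtain ⟨u, hu, rfl⟩ := hc
      constructor
      · intro X hX Z h
        have h1 := hKILL u.fn u.2 (fun t ht => by
          by_contra hne
          exact ht (hDB _ hu t fun h2 => hne h2.1)) X hX Z h
        have h2 : lieH h u = 0 := Subtype.ext h1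
        rw [lieP_toHCp, h2]
        exact toHCp_zero p
      · intro x z hz
        have h1 : mulH b (Algebra.norm ℚ x) (fun i => z i ^ 2) u =
            (Algebra.norm ℚ x) ^ (2 * n) • u := Subtype.ext (hENDO _ hu _ z hz)
        rw [mulP_toHCp, h1, toHCp_smul, Rat.cast_pow]
    | zero =>
      refine ⟨fun X _ Z h => map_zero (lieP p h), fun x z _ => ?_⟩
      rw [smul_zero]
      exact map_zero (mulP p b _ _)
    | add c d _ _ hc hd =>
      refine ⟨fun X hX Z h => ?_, fun x z hz => ?_⟩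
      · rw [map_add, hc.1 X hX Z h, hd.1 X hX Z h, add_zero]
      · rw [map_add, hc.2 x z hz, hd.2 x z hz, smul_add]
    | smul l c _ hc =>
      refine ⟨fun X hX Z h => ?_, fun x z hz => ?_⟩
      · rw [map_smul, hc.1 X hX Z h, smul_zero]
      · rw [map_smul, hc.2 x z hz, smul_comm]

end TFINx

end

end Pool.Agent.TPR
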