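import Pool.Agent.Lib.TPR.FinP
import Pool.Agent.Lib.TPR.Dbp
import Pool.Agent.Lib.TPR.DefsC

/-!
# TateProducts, `A` of symplectic or `GL₂`-type: from the rows TBAL, TKILL (helper79)
-/

set_option autoImplicit false

open scoped ComplexConjugate Matrix TensorProduct
open Complex Pool.Agent.HCM Pool.Agent.RAT Pool.Agent.GG

namespace Pool.Agent.TPR

noncomputable section

section

variable {S Λ : Type} {M G : S → Type} [Fintype Λ] {ι : Type} {K : ι → Type}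
  [∀ i, Field (K i)]

theorem prodC_mem (b : Λ → Crd M G → ℂ) (Φ : ∀ i, Set (K i →+* ℂ)) (n : ℕ)
    (w : (Fin (2 * n) → Lt M G K) → ℂ) (hw : IsProdC b Φ n w) : w ∈ HX K b (Fin (2 * n)) :=
  prodH_mem b Φ n w hw

theorem dB_of_isProdC {b : Λ → Crd M G → ℂ} {Φ : ∀ i, Set (K i →+* ℂ)} {n : ℕ}
    {w : (Fin (2 * n) → Lt M G K) → ℂ} (hw : IsProdC b Φ n w) : DB Φ w := by
  intro t ht
  by_contra hc
  apply ht
  obtain ⟨j, c, e, δ, v, -, hδ, hv, rfl⟩ := hw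
  obtain ⟨σ, hσ⟩ := Dbp.exists_of_alt hc
  have h1 := left_ne_zero_of_mul hσ
  have h2 := right_ne_zero_of_mul hσ
  have h3 : Dbp.Bal Φ (t ∘ σ) := by
    refine Dbp.bal_sum Φ e (t ∘ σ) ?_ ?_
    · refine Dbp.bal_prod Φ _ fun r => ?_
      have h4 := Finset.prod_ne_zero_iff.1 h1 r (Finset.mem_univ r)
      refine Dbp.bal_A Φ (j := 1) (by simp) (Dbp.HA_support b (hδ r).1 h4) ?_
      by_contra h
      exact h4 ((hδ r).2 _ h)
    · exact Dbp.bal_extB hv h2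
  exact Dbp.bal_perm Φ t σ h3

end

namespace TFINx

theorem mulF_of_span {S Λ : Type} {M G : S → Type} [Fintype Λ] [Fintype S]
    [∀ s, Fintype (M s)] [∀ s, Fintype (G s)] {ι : Type} {K : ι → Type} [∀ i, Field (K i)]
    {n : ℕ} (N q : ℚ) (z : ∀ i, K i) (P : ((Fin (2 * n) → Lt M G K) → ℂ) → Prop)
    (h : ∀ w, P w → mulF N z w = q • w) (w : (Fin (2 * n) → Lt M G K) → ℂ)
    (hw : w ∈ Submodule.span ℚ {w | P w}) : mulF N z w = q • w := by
  induction hw using Submodule.span_induction with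
  | mem w hw => exact h w hw
  | zero => rw [map_zero, smul_zero]
  | add u v _ _ hu hv => rw [map_add, hu, hv, smul_add]
  | smul r u _ hu => rw [map_smul, hu, smul_comm]

theorem tateC_of_rows
    (hBAL : ∀ (S Λ : Type) [Fintype S] [Fintype Λ] (M G : S → Type) [∀ s, Fintype (M s)]
      [∀ s, Fintype (G s)] (b : Module.Basis Λ ℝ (Crd M G → ℂ)) (ι : Type) [Finite ι]
      (K : ι → Type) [∀ i, Field (K i)] [∀ i, NumberField (K i)] (n : ℕ),
      ∀ u ∈ HX K b (Fin (2 * n)),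
      (∀ X ∈ hodgeLie b, ∀ Z : Matrix (AL M G) (AL M G) ℂ, IsRep b X Z → lieF Z u = 0) →
        ∀ t, u t ≠ 0 → nAT t = nAF t)
    (hKILL : ∀ (S Λ : Type) [Fintype S] [Fintype Λ] (M G : S → Type) [∀ s, Fintype (M s)]
      [∀ s, Fintype (G s)] (b : Module.Basis Λ ℝ (Crd M G → ℂ)) (ι : Type) [Finite ι]
      (K : ι → Type) [∀ i, Field (K i)] [∀ i, NumberField (K i)] (n : ℕ),
      ∀ u ∈ HX K b (Fin (2 * n)), (∀ t, u t ≠ 0 → nAT t = nAF t) →
      ∀ X ∈ hodgeLie b, ∀ Z : Matrix (AL M G) (AL M G) ℂ, IsRep b X Z → lieF Z u = 0)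
    (p : ℕ) [Fact p.Prime] (n : ℕ) (S Λ : Type) [Fintype S] [Fintype Λ] (M G : S → Type)
    [∀ s, Fintype (M s)] [∀ s, Fintype (G s)] (b : Module.Basis Λ ℝ (Crd M G → ℂ)) (ι : Type)
    [Finite ι] (K : ι → Type) [∀ i, Field (K i)] [∀ i, NumberField (K i)]
    [∀ i, NumberField.IsCMField (K i)] (Φ : ∀ i, Set (K i →+* ℂ)) (hΦ : ∀ i, IsCMType (Φ i))
    (hA : IsSymp b ∨ IsGL2 b)
    (E : Type) [Field E] [NumberField E] [IsGalois ℚ E] (j : ∀ i, K i →+* E) (τ₀ : E →+* ℂ)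
    (c : HCp p K b n) :
    IsTateX p b Φ j τ₀ c ↔
      c ∈ Submodule.span ℚ_[p] (RatP p (IsProdC b Φ n) : Set (HCp p K b n)) :=
  tate_iff p b Φ j τ₀ (hBAL S Λ M G b ι K n) (hKILL S Λ M G b ι K n)
    (fun N hN u hu => ttor Φ j τ₀ N hN u hu)
    (fun t => (card_letters Φ t).trans (by simp)) (IsProdC b Φ n)
    (prodC_mem b Φ n)
    (fun u hu h => hodx n S Λ M G b ι K Φ hΦ hA u hu fun t ht => dB_hodge h t ht)
    (fun _ hw => dB_of_isProdC hw)
    (fun w hw x z hz => mulF_of_span (S := S) (Λ := Λ) (M := M) (G := G) (K := K) (n := n)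
      (Algebra.norm ℚ x) ((Algebra.norm ℚ x) ^ (2 * n)) (fun i => z i ^ 2) (IsProdD b Φ n)
      (fun _ h => tendo h x z hz) w
      (tspl n S Λ M G b ι K Φ hΦ w (prodC_mem b Φ n w hw) (dB_of_isProdC hw))) c

end TFINx

end

end Pool.Agent.TPR
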