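import Pool.Agent.Lib.GG.MIXR
import Pool.Agent.Lib.GG.Main
import Pool.Agent.Lib.GG.Hodge
import Pool.Agent.Lib.TPR.Defs

/-!
# TateProducts: Pontryagin products of rational classes are rational (helper79)
-/

set_option autoImplicit false

open scoped ComplexConjugate Matrix
open Complex Pool.Agent.HCM Pool.Agent.RAT Pool.Agent.GG

namespace Pool.Agent.TPR

noncomputable section

namespace PMEMx

section gen

variable {P Y V : Type}

theorem rtn_mul {p : Y → V → ℂ} {Q1 Q2 : Finset P} (h : Disjoint Q1 Q2)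
    {f g : (P → Y) → ℂ} (hf : f ∈ RTn p Q1) (hg : g ∈ RTn p Q2) [DecidableEq P] :
    (fun t => f t * g t) ∈ RTn p (Q1 ∪ Q2) := by
  classical
  induction hf using Submodule.span_induction with
  | mem f hf =>
    obtain ⟨x, rfl⟩ := hf
    induction hg using Submodule.span_induction with
    | mem g hg =>
      obtain ⟨y, rfl⟩ := hg
      refine Submodule.subset_span ⟨fun i => if i ∈ Q1 then x i else y i, ?_⟩
      funext t
      change ∏ i ∈ Q1 ∪ Q2, p (t i) (if i ∈ Q1 then x i else y i) = _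
      rw [Finset.prod_union h]
      congr 1
      · refine Finset.prod_congr rfl fun i hi => ?_
        rw [if_pos hi]
      · refine Finset.prod_congr rfl fun i hi => ?_
        rw [if_neg (Finset.disjoint_right.1 h hi)]
    | zero =>
      have : (fun t : P → Y => (∏ i ∈ Q1, p (t i) (x i)) * (0 : (P → Y) → ℂ) t) = 0 := by
        funext t
        simp
      rw [this]
      exact Submodule.zero_mem _
    | add g g' _ _ hg hg' =>
      have := Submodule.add_mem _ hg hg'
      refine (congrArg (· ∈ RTn p (Q1 ∪ Q2)) ?_).mp this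
      funext t
      simp [mul_add]
    | smul q g _ hg =>
      have := Submodule.smul_mem _ q hg
      refine (congrArg (· ∈ RTn p (Q1 ∪ Q2)) ?_).mp this
      funext t
      simp [Rat.smul_def, mul_left_comm]
  | zero =>
    have : (fun t : P → Y => (0 : (P → Y) → ℂ) t * g t) = 0 := by
      funext t
      simp
    rw [this]
    exact Submodule.zero_mem _
  | add f f' _ _ hf hf' =>
    have := Submodule.add_mem _ hf hf'
    refine (congrArg (· ∈ RTn p (Q1 ∪ Q2)) ?_).mp this
    funext t
    simp [add_mul]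
  | smul q f _ hf =>
    have := Submodule.smul_mem _ q hf
    refine (congrArg (· ∈ RTn p (Q1 ∪ Q2)) ?_).mp this
    funext t
    simp [Rat.smul_def, mul_assoc]

theorem rtn_one (p : Y → V → ℂ) [Inhabited V] : (fun _ : P → Y => (1 : ℂ)) ∈ RTn p ∅ :=
  Submodule.subset_span ⟨fun _ => default, by funext t; simp⟩

theorem rtn_prod {p : Y → V → ℂ} [Inhabited V] [DecidableEq P] {κ : Type} (s : Finset κ)
    (Q : κ → Finset P) (hQ : ∀ a b, a ≠ b → Disjoint (Q a) (Q b)) (f : κ → (P → Y) → ℂ)
    (hf : ∀ a, f a ∈ RTn p (Q a)) :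
    (fun t => ∏ a ∈ s, f a t) ∈ RTn p (s.biUnion Q) := by
  classical
  induction s using Finset.induction_on with
  | empty => simpa using rtn_one p
  | insert a s ha ih =>
    rw [Finset.biUnion_insert]
    have h1 := rtn_mul (p := p) (Q1 := Q a) (Q2 := s.biUnion Q) (by
      rw [Finset.disjoint_biUnion_right]
      intro b hb
      exact hQ a b (fun h => ha (h ▸ hb))) (hf a) ih
    refine (congrArg (· ∈ RTn p (Q a ∪ s.biUnion Q)) ?_).mp h1
    funext t
    rw [Finset.prod_insert ha]

theorem rtn_comap {P' : Type} [Fintype P'] {p : Y → V → ℂ} [Inhabited V] [DecidableEq P]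
    (e : P' → P) (he : Function.Injective e) {f : (P' → Y) → ℂ}
    (hf : f ∈ RTn p (Finset.univ : Finset P')) :
    (fun t : P → Y => f fun i => t (e i)) ∈ RTn p (Finset.univ.image e) := by
  induction hf using Submodule.span_induction with
  | mem f hf =>
    obtain ⟨x, rfl⟩ := hf
    refine Submodule.subset_span ⟨Function.extend e x fun _ => default, ?_⟩
    funext t
    change ∏ i ∈ Finset.univ.image e, p (t i) (Function.extend e x (fun _ => default) i) = _
    rw [Finset.prod_image fun a _ b _ h => he h]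
    refine Finset.prod_congr rfl fun i _ => ?_
    rw [he.extend_apply]
  | zero => exact Submodule.zero_mem _
  | add f f' _ _ hf hf' => exact Submodule.add_mem _ hf hf'
  | smul q f _ hf => exact Submodule.smul_mem _ q hf

end gen

section

variable {S Λ : Type} {M G : S → Type} [Fintype Λ] {ι : Type} {K : ι → Type}
  [∀ i, Field (K i)]

theorem alt_prod_per {m : ℕ} (b : Λ → Crd M G → ℂ) (x : Fin m → Lp Λ K) :
    alt (fun t : Fin m → Lt M G K => ∏ i ∈ Finset.univ, per b (t i) (x i)) = torX b x := by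
  funext t
  unfold alt torX
  rw [Matrix.det_apply]
  refine Finset.sum_congr rfl fun σ _ => ?_
  rw [Units.smul_def, zsmul_eq_mul]
  rfl

theorem alt_mem_HX {m : ℕ} (b : Λ → Crd M G → ℂ) {v : (Fin m → Lt M G K) → ℂ}
    (hv : v ∈ RTn (per b) (Finset.univ : Finset (Fin m))) : alt v ∈ HX K b (Fin m) := by
  unfold RTn at hv
  induction hv using Submodule.span_induction with
  | mem y hy =>
    obtain ⟨x, rfl⟩ := hy
    refine Submodule.subset_span ⟨x, ?_⟩
    rw [← alt_prod_per]
  | zero =>
    rw [MainA.alt_zero]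
    exact Submodule.zero_mem _
  | add y z _ _ hy hz =>
    rw [MainA.alt_add]
    exact Submodule.add_mem _ hy hz
  | smul q y _ hy =>
    rw [MainA.alt_smul]
    exact Submodule.smul_mem _ _ hy

theorem HA_le (b : Λ → Crd M G → ℂ) (T : Type) [Fintype T] [DecidableEq T] :
    HA (M := M) (G := G) K b T ≤ HX K b T := by
  unfold HA HX
  refine Submodule.span_mono ?_
  rintro _ ⟨x, rfl⟩
  exact ⟨_, rfl⟩

theorem extB_rtn {T : Type} [Fintype T] [DecidableEq T] (b : Λ → Crd M G → ℂ)
    {v : (T → Idx K) → ℂ} (hv : v ∈ RTn (perB (K := K)) (Finset.univ : Finset T)) :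
    (extB v : (T → Lt M G K) → ℂ) ∈ RTn (per b) (Finset.univ : Finset T) := by
  classical
  unfold RTn at hv
  induction hv using Submodule.span_induction with
  | mem y hy =>
    obtain ⟨x, rfl⟩ := hy
    refine Submodule.subset_span ⟨fun i => (0, x i), ?_⟩
    funext t
    change ∏ i ∈ Finset.univ, per b (t i) (0, x i) = extB _ t
    unfold extB
    split_ifs with h
    · refine Finset.prod_congr rfl fun i _ => ?_
      rcases hi : t i with a | a
      · have := h i
        rw [hi] at this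
        exact absurd this (by simp)
      · have e : (t i).getRight (h i) = a := by simp [hi]
        change _ = perB ((t i).getRight (h i)) (x i)
        rw [e]
        rfl
    · push Not at h
      obtain ⟨i, hi⟩ := h
      refine Finset.prod_eq_zero (Finset.mem_univ i) ?_
      rcases hi' : t i with a | a
      · simp [per, perA]
      · rw [hi'] at hi
        exact absurd rfl hi
  | zero =>
    have : (extB (0 : (T → Idx K) → ℂ) : (T → Lt M G K) → ℂ) = 0 := by
      funext t
      unfold extB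
      split_ifs <;> rfl
    rw [this]
    exact Submodule.zero_mem _
  | add y z _ _ hy hz =>
    refine (congrArg (· ∈ RTn (per b) (Finset.univ : Finset T)) ?_).mp (Submodule.add_mem _ hy hz)
    funext t
    simp only [Pi.add_apply]
    unfold extB
    split_ifs
    · rfl
    · simp
  | smul q y _ hy =>
    refine (congrArg (· ∈ RTn (per b) (Finset.univ : Finset T)) ?_).mp (Submodule.smul_mem _ q hy)
    funext t
    simp only [Pi.smul_apply]
    unfold extB
    split_ifs
    · rfl
    · simp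

theorem HQ_rtn {n : ℕ} {v : (Two n → Idx K) → ℂ} (hv : v ∈ HQ K n) :
    v ∈ RTn (perB (K := K)) (Finset.univ : Finset (Two n)) := by
  unfold HQ at hv
  induction hv using Submodule.span_induction with
  | mem y hy =>
    obtain ⟨x, rfl⟩ := hy
    have h : torusClass x = ∑ σ : Equiv.Perm (Two n), ((Equiv.Perm.sign σ : ℤ) : ℚ) •
        fun t : Two n → Idx K => ∏ i, perB (t i) (x (σ i)) := by
      funext t
      unfold torusClass
      rw [← Matrix.det_transpose, Matrix.det_apply', Finset.sum_apply]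
      refine Finset.sum_congr rfl fun σ _ => ?_
      rw [Pi.smul_apply, Rat.smul_def]
      push_cast
      rfl
    rw [h]
    exact Submodule.sum_mem _ fun σ _ => Submodule.smul_mem _ _ (Submodule.subset_span ⟨_, rfl⟩)
  | zero => exact Submodule.zero_mem _
  | add y z _ _ hy hz => exact Submodule.add_mem _ hy hz
  | smul q y _ hy => exact Submodule.smul_mem _ q hy

theorem BallQ_HQ {n : ℕ} {Φ : ∀ i, Set (K i →+* ℂ)} {v : (Two n → Idx K) → ℂ}
    (hv : IsBallQ Φ v) : v ∈ HQ K n := by
  refine Submodule.span_induction (p := fun v _ => v ∈ HQ K n) ?_ ?_ ?_ ?_ hv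
  · rintro v ⟨h, -⟩
    exact h
  · exact Submodule.zero_mem _
  · intro f g _ _ hf hg
    exact Submodule.add_mem _ hf hg
  · intro q f _ hf
    exact Submodule.smul_mem _ q hf

theorem alt_pair_mem {T1 T2 : Type} [Fintype T1] [Fintype T2] [DecidableEq T2] {N : ℕ}
    (b : Λ → Crd M G → ℂ) (e : T1 ⊕ T2 ≃ Fin N) {f : (T1 → Lt M G K) → ℂ}
    (hf : f ∈ RTn (per b) (Finset.univ : Finset T1)) {v : (T2 → Idx K) → ℂ}
    (hv : v ∈ RTn (perB (K := K)) (Finset.univ : Finset T2)) :
    alt (fun t : Fin N → Lt M G K => (f fun i => t (e (Sum.inl i))) *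
      extB v fun i => t (e (Sum.inr i))) ∈ HX K b (Fin N) := by
  classical
  have i0 : Inhabited (Lp Λ K) := ⟨0⟩
  have h1 := rtn_comap (P := Fin N) (fun i : T1 => e (Sum.inl i))
    (e.injective.comp Sum.inl_injective) hf
  have h2 := rtn_comap (P := Fin N) (fun i : T2 => e (Sum.inr i))
    (e.injective.comp Sum.inr_injective) (extB_rtn b hv)
  have h3 := rtn_mul (by
    rw [Finset.disjoint_left]
    intro a ha hb
    obtain ⟨i, -, rfl⟩ := Finset.mem_image.1 ha
    obtain ⟨i', -, h⟩ := Finset.mem_image.1 hb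
    exact absurd (e.injective h) (by simp)) h1 h2
  have h4 : (Finset.univ.image fun i : T1 => e (Sum.inl i)) ∪
      (Finset.univ.image fun i : T2 => e (Sum.inr i)) = Finset.univ := by
    rw [Finset.eq_univ_iff_forall]
    intro a
    rw [Finset.mem_union, Finset.mem_image, Finset.mem_image]
    rcases h : e.symm a with i | i
    · exact Or.inl ⟨i, Finset.mem_univ _, by rw [← h, Equiv.apply_symm_apply]⟩
    · exact Or.inr ⟨i, Finset.mem_univ _, by rw [← h, Equiv.apply_symm_apply]⟩
  rw [h4] at h3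
  exact alt_mem_HX b h3

theorem const_rtn {c : ℕ} (hc : c = 0) {v : (Two c → Idx K) → ℂ} (hv : ∃ q : ℚ, ∀ t, v t = q) :
    v ∈ RTn (perB (K := K)) (Finset.univ : Finset (Two c)) := by
  subst hc
  obtain ⟨q, hq⟩ := hv
  have h : v = q • fun _ => (1 : ℂ) := by
    funext t
    rw [hq, Pi.smul_apply, Rat.smul_def, mul_one]
  rw [h]
  refine Submodule.smul_mem _ q (Submodule.subset_span ⟨fun _ => 0, ?_⟩)
  funext t
  simp

theorem v_rtn {c : ℕ} {Φ : ∀ i, Set (K i →+* ℂ)} {v : (Two c → Idx K) → ℂ}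
    (hv : (c = 0 ∧ ∃ q : ℚ, ∀ t, v t = q) ∨ (0 < c ∧ IsBallQ Φ v)) :
    v ∈ RTn (perB (K := K)) (Finset.univ : Finset (Two c)) := by
  rcases hv with ⟨hc, hv⟩ | ⟨-, hv⟩
  · exact const_rtn hc hv
  · exact HQ_rtn (BallQ_HQ hv)

theorem prod_rtn {j : ℕ} (b : Λ → Crd M G → ℂ) (δ : Fin j → (Fin 2 → Lt M G K) → ℂ)
    (hδ : ∀ r, δ r ∈ RTn (per b) (Finset.univ : Finset (Fin 2))) :
    (fun t : Fin j × Fin 2 → Lt M G K => ∏ r, δ r fun i => t (r, i)) ∈
      RTn (per b) (Finset.univ : Finset (Fin j × Fin 2)) := by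
  classical
  have i0 : Inhabited (Lp Λ K) := ⟨0⟩
  have h1 := rtn_prod (p := per b) (Finset.univ : Finset (Fin j))
    (fun r => Finset.univ.image fun i : Fin 2 => (r, i)) (by
      intro r r' h
      rw [Finset.disjoint_left]
      intro a ha hb
      obtain ⟨i, -, rfl⟩ := Finset.mem_image.1 ha
      obtain ⟨i', -, h'⟩ := Finset.mem_image.1 hb
      exact h (congrArg Prod.fst h').symm)
    (fun r t => δ r fun i => t (r, i)) (fun r => rtn_comap (P := Fin j × Fin 2)
      (fun i : Fin 2 => (r, i)) (fun i i' h => congrArg Prod.snd h) (hδ r))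
  refine (congrArg (fun Q => _ ∈ RTn (per b) Q) ?_).mp h1
  rw [Finset.eq_univ_iff_forall]
  rintro ⟨r, i⟩
  simp

end

end PMEMx

open PMEMx

section

variable {S Λ : Type} {M G : S → Type} [Fintype Λ] {ι : Type} {K : ι → Type}
  [∀ i, Field (K i)]

/-- **Products of divisor classes of `A` and of a ball class of `B` are rational.** -/
theorem prodH_mem (b : Λ → Crd M G → ℂ) (Φ : ∀ i, Set (K i →+* ℂ)) (n : ℕ)
    (w : (Fin (2 * n) → Lt M G K) → ℂ) (hw : IsProdH b Φ n w) : w ∈ HX K b (Fin (2 * n)) := by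
  obtain ⟨j, c, e, δ, v, -, hδ, hv, rfl⟩ := hw
  refine alt_pair_mem b e (f := fun t : Fin j × Fin 2 → Lt M G K => ∏ r, δ r fun i => t (r, i))
    (prod_rtn b δ fun r => ?_) (v_rtn hv)
  exact hxr S Λ M G b ι K (Fin 2) (HA_le b (Fin 2) (hδ r).1)

/-- **Products of a rational class of `A` and of a ball class of `B` are rational.** -/
theorem pair_mem (b : Λ → Crd M G → ℂ) (Φ : ∀ i, Set (K i →+* ℂ)) {N m c : ℕ}
    (e : Fin m ⊕ Two c ≃ Fin N) (d : (Fin m → Lt M G K) → ℂ) (v : (Two c → Idx K) → ℂ)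
    (hd : d ∈ HA K b (Fin m))
    (hv : (c = 0 ∧ ∃ q : ℚ, ∀ t, v t = q) ∨ (0 < c ∧ IsBallQ Φ v)) :
    (alt fun t => d (fun i => t (e (Sum.inl i))) * extB v fun i => t (e (Sum.inr i))) ∈
      HX K b (Fin N) :=
  alt_pair_mem b e (hxr S Λ M G b ι K (Fin m) (HA_le b (Fin m) hd)) (v_rtn hv)

theorem prodD_mem (b : Λ → Crd M G → ℂ) (Φ : ∀ i, Set (K i →+* ℂ)) (n : ℕ)
    (w : (Fin (2 * n) → Lt M G K) → ℂ) (hw : IsProdD b Φ n w) : w ∈ HX K b (Fin (2 * n)) := by
  obtain ⟨j, c, e, d, v, -, hd, hv, rfl⟩ := hw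
  exact pair_mem b Φ e d v hd.1 hv

end

end

end Pool.Agent.TPR
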