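import Pool.Agent.Lib.GG.Hodge
import Pool.Agent.Lib.TPR.Defs

/-!
# TateProducts, row TSPL: balanced classes on `A × B` are sums of Pontryagin products (helper39)

`A` is any complex torus, `B` is a product of tori of CM type.  A rational class on `A × B` which
vanishes on all words with different numbers of letters `dz` and `conj dz` on `A`, or of letters of
type `(1,0)` and `(0,1)` on `B`, is a combination of Pontryagin products of a Hodge class of `A` and
a Hodge class of `B`.
-/

set_option autoImplicit false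

open scoped ComplexConjugate Matrix
open Complex Pool.Agent.RAT
open Pool.Agent.HCM hiding TT

namespace Pool.Agent.TPR

open Pool.Agent.GG Pool.Agent.GG.PartcAux Pool.Agent.GG.MainA Pool.Agent.GG.TermA

noncomputable section


namespace Spl

/-! ### The two flatness steps -/

section flat

variable {X Y : Type}

/-- the elements of `B` which vanish on `T` -/
def vanOn (B : Submodule ℚ (Y → ℂ)) (T : Set Y) : Submodule ℚ (Y → ℂ) where
  carrier := {v | v ∈ B ∧ ∀ y ∈ T, v y = 0}
  zero_mem' := ⟨B.zero_mem, fun _ _ => rfl⟩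
  add_mem' := by
    rintro v w ⟨hv, hv'⟩ ⟨hw, hw'⟩
    exact ⟨B.add_mem hv hw, fun y hy => by rw [Pi.add_apply, hv' y hy, hw' y hy, add_zero]⟩
  smul_mem' := by
    rintro q v ⟨hv, hv'⟩
    exact ⟨B.smul_mem q hv, fun y hy => by rw [Pi.smul_apply, hv' y hy, smul_zero]⟩

theorem TT_swap {A : Submodule ℚ (X → ℂ)} {B : Submodule ℚ (Y → ℂ)} {f : X → Y → ℂ}
    (hf : f ∈ TT A B) : (fun y x => f x y) ∈ TT B A := by
  refine Submodule.span_induction (p := fun f _ => (fun y x => f x y) ∈ TT B A) ?_ ?_ ?_ ?_ hf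
  · rintro _ ⟨p, hp, v, hv, rfl⟩
    exact Submodule.subset_span ⟨v, hv, p, hp, by funext y x; exact mul_comm _ _⟩
  · exact Submodule.zero_mem _
  · intro f g _ _ hf hg
    exact Submodule.add_mem _ hf hg
  · intro q f _ hf
    exact Submodule.smul_mem _ q hf

theorem TT_van {A : Submodule ℚ (X → ℂ)} {B : Submodule ℚ (Y → ℂ)} (hA : QInd A)
    {f : X → Y → ℂ} (hf : f ∈ TT A B) (T : Set Y) (hT : ∀ y ∈ T, ∀ x, f x y = 0) :
    f ∈ TT A (vanOn B T) := by
  have h := step hA le_rfl bot_le hf T (A' := ⊥) (by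
    intro y hy
    have h1 : (fun x => f x y) = 0 := funext fun x => hT y hy x
    rw [h1]
    exact Submodule.zero_mem _)
  refine (sup_le ?_ ?_ : _ ≤ TT A (vanOn B T)) h
  · refine Submodule.span_mono ?_
    rintro g ⟨p, hp, v, hv, hz, rfl⟩
    exact ⟨p, hp, v, ⟨hv, hz⟩, rfl⟩
  · unfold TT
    rw [Submodule.span_le]
    rintro _ ⟨p, hp, v, hv, rfl⟩
    have h1 : p = 0 := (Submodule.mem_bot ℚ).1 hp
    have h2 : (fun x y => p x * v y : X → Y → ℂ) = 0 := by
      funext x y
      rw [h1]
      simp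
    rw [h2]
    exact Submodule.zero_mem _

/-- both steps -/
theorem TT_van2 {A : Submodule ℚ (X → ℂ)} {B : Submodule ℚ (Y → ℂ)} (hA : QInd A) (hB : QInd B)
    {f : X → Y → ℂ} (hf : f ∈ TT A B) (T : Set X) (T' : Set Y)
    (hT : ∀ x ∈ T, ∀ y, f x y = 0) (hT' : ∀ y ∈ T', ∀ x, f x y = 0) :
    f ∈ TT (vanOn A T) (vanOn B T') := by
  have h1 := TT_van hA hf T' hT'
  have h2 := TT_van (hB.mono (fun v hv => hv.1 : vanOn B T' ≤ B)) (TT_swap h1) T
    (fun x hx y => hT x hx y)
  exact TT_swap h2

end flat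

/-! ### The block of `A` -/

section blockA

variable {S Λ : Type} {M G : S → Type} [Fintype Λ]
variable {ι : Type} {K : ι → Type} [∀ i, Field (K i)]

open Classical in
/-- A function of words in the letters of `A`, as a function of words in the letters of `A × B`. -/
def extA {T : Type} (p : (T → AL M G) → ℂ) (t : T → Lt M G K) : ℂ :=
  if h : ∀ i, (t i).isLeft then p fun i => (t i).getLeft (h i) else 0

theorem extA_add {T : Type} (p p' : (T → AL M G) → ℂ) :
    (extA (p + p') : (T → Lt M G K) → ℂ) = extA p + extA p' := by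
  funext t
  simp only [extA, Pi.add_apply]
  split_ifs <;> simp

theorem extA_smul {T : Type} (q : ℚ) (p : (T → AL M G) → ℂ) :
    (extA (q • p) : (T → Lt M G K) → ℂ) = q • extA p := by
  funext t
  simp only [extA, Pi.smul_apply]
  split_ifs <;> simp

theorem extA_zero {T : Type} :
    (extA (0 : (T → AL M G) → ℂ) : (T → Lt M G K) → ℂ) = 0 := by
  funext t
  simp only [extA, Pi.zero_apply]
  split_ifs <;> rfl

theorem extA_prod {T : Type} [Fintype T] (b : Λ → Crd M G → ℂ) (x : T → Λ → ℚ) :
    (extA (fun t : T → AL M G => ∏ i ∈ Finset.univ, perA b (t i) (x i)) :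
      (T → Lt M G K) → ℂ) = fun t => ∏ i, per b (t i) (x i, 0) := by
  funext t
  by_cases h : ∀ i, (t i).isLeft
  · rw [extA, dif_pos h]
    refine Finset.prod_congr rfl fun i _ => ?_
    obtain ⟨a, ha⟩ : ∃ a, t i = Sum.inl a := by
      cases h3 : t i with
      | inl a => exact ⟨a, rfl⟩
      | inr a =>
        have := h i
        rw [h3] at this
        exact absurd this (by simp)
    simp only [ha, Sum.getLeft_inl]
    rfl
  · rw [extA, dif_neg h]
    push Not at h
    obtain ⟨i, hi⟩ := h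
    symm
    refine Finset.prod_eq_zero (Finset.mem_univ i) ?_
    cases h3 : t i with
    | inl a =>
      rw [h3] at hi
      exact absurd rfl hi
    | inr a => exact per_inr b a (x i)

theorem alt_prod_per {m : ℕ} (b : Λ → Crd M G → ℂ) (y : Fin m → Lp Λ K) :
    alt (fun t : Fin m → Lt M G K => ∏ i, per b (t i) (y i)) = torX b y := by
  funext t
  unfold alt torX
  rw [Matrix.det_apply]
  refine Finset.sum_congr rfl fun σ _ => ?_
  rw [Units.smul_def, zsmul_eq_mul]
  rfl

theorem alt_extA_mem {m : ℕ} (b : Λ → Crd M G → ℂ) {p : (Fin m → AL M G) → ℂ}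
    (hp : p ∈ RTn (perA b) (Finset.univ : Finset (Fin m))) :
    alt (extA p : (Fin m → Lt M G K) → ℂ) ∈ HA K b (Fin m) := by
  refine Submodule.span_induction
    (p := fun p _ => alt (extA p : (Fin m → Lt M G K) → ℂ) ∈ HA K b (Fin m)) ?_ ?_ ?_ ?_ hp
  · rintro _ ⟨x, rfl⟩
    simp only
    rw [extA_prod, alt_prod_per]
    exact Submodule.subset_span ⟨x, rfl⟩
  · rw [extA_zero, alt_zero]
    exact Submodule.zero_mem _
  · intro f g _ _ hf hg
    rw [extA_add, alt_add]
    exact Submodule.add_mem _ hf hg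
  · intro q f _ hf
    rw [extA_smul, alt_smul]
    exact Submodule.smul_mem _ q hf

/-- the numbers of letters of words in the letters of `A` -/
def cT {T : Type} (t : T → AL M G) : ℕ := {i | (t i).2 = true}.ncard

/-- the numbers of letters of words in the letters of `A` -/
def cF {T : Type} (t : T → AL M G) : ℕ := {i | (t i).2 = false}.ncard

theorem cT_add_cF {T : Type} [Fintype T] (t : T → AL M G) : cT t + cF t = Fintype.card T := by
  have h := Set.ncard_add_ncard_compl {i | (t i).2 = true}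
  rw [Nat.card_eq_fintype_card] at h
  rw [← h, cT, cF]
  congr 2
  ext i
  simp

theorem alt_extA_type {j : ℕ} (Φ : ∀ i, Set (K i →+* ℂ)) {p : (Fin (2 * j) → AL M G) → ℂ}
    (hp : ∀ t, cT t ≠ cF t → p t = 0) (t : Fin (2 * j) → Lt M G K) (ht : cntT Φ t ≠ j) :
    alt (extA p) t = 0 := by
  by_contra hne
  unfold alt at hne
  obtain ⟨σ, -, hσ⟩ := Finset.exists_ne_zero_of_sum_ne_zero hne
  have h1 : extA p (t ∘ σ) ≠ 0 := right_ne_zero_of_mul hσ
  by_cases h : ∀ i, ((t ∘ σ) i).isLeft
  · rw [extA, dif_pos h] at h1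
    have h2 : cT (fun i => ((t ∘ σ) i).getLeft (h i)) = cF (fun i => ((t ∘ σ) i).getLeft (h i)) := by
      by_contra h3
      exact h1 (hp _ h3)
    have h4 := cT_add_cF (fun i => ((t ∘ σ) i).getLeft (h i))
    rw [← h2, Fintype.card_fin] at h4
    have h5 : cT (fun i => ((t ∘ σ) i).getLeft (h i)) = cntT Φ t := by
      have h6 : {a | IsT Φ (t a)} = σ '' {i | (((t ∘ σ) i).getLeft (h i)).2 = true} := by
        ext a
        constructor
        · intro ha
          refine ⟨σ.symm a, ?_, by simp⟩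
          show (((t ∘ σ) (σ.symm a)).getLeft _).2 = true
          obtain ⟨c, hc⟩ : ∃ c, t a = Sum.inl c := by
            have h7 := h (σ.symm a)
            cases h3 : t a with
            | inl c => exact ⟨c, rfl⟩
            | inr c =>
              simp only [Function.comp, Equiv.apply_symm_apply, h3] at h7
              exact absurd h7 (by simp)
          have ha' : IsT Φ (t a) := ha
          rw [hc] at ha'
          have h8 : (t ∘ σ) (σ.symm a) = Sum.inl c := by
            simp [hc]
          simp only [h8, Sum.getLeft_inl]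
          exact ha'
        · rintro ⟨i, hi, rfl⟩
          show IsT Φ (t (σ i))
          obtain ⟨c, hc⟩ : ∃ c, t (σ i) = Sum.inl c := by
            have h7 := h i
            cases h3 : t (σ i) with
            | inl c => exact ⟨c, rfl⟩
            | inr c =>
              simp only [Function.comp, h3] at h7
              exact absurd h7 (by simp)
          have hi' : (((t ∘ σ) i).getLeft (h i)).2 = true := hi
          have h8 : (t ∘ σ) i = Sum.inl c := hc
          simp only [h8, Sum.getLeft_inl] at hi'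
          rw [hc]
          exact hi'
      rw [cntT, h6, Set.ncard_image_of_injective _ σ.injective]
      rfl
    exact ht (by omega)
  · rw [extA, dif_neg h] at h1
    exact h1 rfl

theorem RTnA_equiv {P P' : Type} [Fintype P] [Fintype P'] (b : Λ → Crd M G → ℂ) (e : P ≃ P')
    (p : (P → AL M G) → ℂ) (hp : p ∈ RTn (perA b) (Finset.univ : Finset P)) :
    (fun t : P' → AL M G => p fun i => t (e i)) ∈
      RTn (perA b) (Finset.univ : Finset P') := by
  refine Submodule.span_induction
    (p := fun p _ => (fun t : P' → AL M G => p fun i => t (e i)) ∈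
      RTn (perA b) (Finset.univ : Finset P')) ?_ ?_ ?_ ?_ hp
  · rintro _ ⟨y, rfl⟩
    refine Submodule.subset_span ⟨fun i => y (e.symm i), ?_⟩
    funext w'
    refine (Fintype.prod_equiv e _ _ fun i => ?_).symm
    simp only [Equiv.symm_apply_apply]
  · exact Submodule.zero_mem _
  · intro f g _ _ hf hg
    exact Submodule.add_mem _ hf hg
  · intro q f _ hf
    exact Submodule.smul_mem _ q hf

theorem cT_equiv {P P' : Type} (e : P ≃ P') (t : P' → AL M G) :
    cT (fun i => t (e i)) = cT t := by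
  have h : {i | (t (e i)).2 = true} = e ⁻¹' {i | (t i).2 = true} := rfl
  rw [cT, cT, h, ← Set.ncard_image_of_injective _ e.injective,
    Set.image_preimage_eq _ e.surjective]

theorem cF_equiv {P P' : Type} (e : P ≃ P') (t : P' → AL M G) :
    cF (fun i => t (e i)) = cF t := by
  have h : {i | (t (e i)).2 = false} = e ⁻¹' {i | (t i).2 = false} := rfl
  rw [cF, cF, h, ← Set.ncard_image_of_injective _ e.injective,
    Set.image_preimage_eq _ e.surjective]

end blockA

/-! ### The block of `B` -/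

section blockB

variable {ι : Type} {K : ι → Type} [∀ i, Field (K i)]

theorem HT_HQ {c : ℕ} (ε : Fin (2 * c) ≃ Two c) {v : (Fin (2 * c) → Idx K) → ℂ}
    (hv : v ∈ HT K (Fin (2 * c))) : (fun t : Two c → Idx K => v fun i => t (ε i)) ∈ HQ K c := by
  refine Submodule.span_induction
    (p := fun v _ => (fun t : Two c → Idx K => v fun i => t (ε i)) ∈ HQ K c) ?_ ?_ ?_ ?_ hv
  · rintro _ ⟨x, rfl⟩
    refine Submodule.subset_span ⟨fun i => x (ε.symm i), ?_⟩
    funext t
    rw [torusClass, torusT, ← Matrix.det_submatrix_equiv_self ε]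
    congr 1
    ext i k
    simp [Matrix.submatrix]
  · exact Submodule.zero_mem _
  · intro f g _ _ hf hg
    exact Submodule.add_mem _ hf hg
  · intro q f _ hf
    exact Submodule.smul_mem _ q hf

theorem HT_zero {v : (Fin (2 * 0) → Idx K) → ℂ} (hv : v ∈ HT K (Fin (2 * 0))) :
    ∃ q : ℚ, ∀ t, v t = q := by
  refine Submodule.span_induction
    (p := fun (v : (Fin (2 * 0) → Idx K) → ℂ) _ => ∃ q : ℚ, ∀ t, v t = (q : ℂ)) ?_ ?_ ?_ ?_ hv
  · rintro _ ⟨y, rfl⟩
    have : IsEmpty (Fin (2 * 0)) := by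
      rw [Nat.mul_zero]
      infer_instance
    exact ⟨1, fun t => by
      rw [torusT, Matrix.det_isEmpty]; simp⟩
  · exact ⟨0, fun t => by simp⟩
  · rintro f g _ _ ⟨q, hf⟩ ⟨q', hg⟩
    exact ⟨q + q', fun t => by rw [Pi.add_apply, hf, hg]; push_cast; ring⟩
  · rintro r f _ ⟨q, hf⟩
    exact ⟨r * q, fun t => by
      rw [Pi.smul_apply, hf, Algebra.smul_def]; simp⟩

/-- the block of `B` -/
theorem blockB [Finite ι] [∀ i, NumberField (K i)] [∀ i, NumberField.IsCMField (K i)]
    (Φ : ∀ i, Set (K i →+* ℂ)) (hΦ : ∀ i, IsCMType (Φ i)) {c : ℕ} (ε : Fin (2 * c) ≃ Two c)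
    {v : (Fin (2 * c) → Idx K) → ℂ}
    (hv : v ∈ RTn (perB (K := K)) (Finset.univ : Finset (Fin (2 * c))))
    (hv0 : ∀ w, nF Φ w ≠ nT Φ w → v w = 0) :
    (c = 0 ∧ ∃ q : ℚ, ∀ t : Two c → Idx K, alt v (fun i => t (ε i)) = q) ∨
      (0 < c ∧ IsBallQ Φ (fun t : Two c → Idx K => alt v fun i => t (ε i))) := by
  rcases Nat.eq_zero_or_pos c with hc | hc
  · left
    refine ⟨hc, ?_⟩
    subst hc
    obtain ⟨q, hq⟩ := HT_zero (alt_mem_HT hv)
    exact ⟨q, fun t => hq _⟩
  · right
    refine ⟨hc, ?_⟩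
    refine hodgeQ c ι K Φ hc hΦ _ (HT_HQ ε (alt_mem_HT hv)) ?_
    intro t ht
    by_contra hne
    unfold alt at hne
    obtain ⟨σ, -, hσ⟩ := Finset.exists_ne_zero_of_sum_ne_zero hne
    have h1 : v ((fun i => t (ε i)) ∘ σ) ≠ 0 := right_ne_zero_of_mul hσ
    have h2 : nF Φ ((fun i => t (ε i)) ∘ σ) = nT Φ ((fun i => t (ε i)) ∘ σ) := by
      by_contra h3
      exact h1 (hv0 _ h3)
    have h3 : nF Φ ((fun i => t (ε i)) ∘ σ) = nF Φ t := nF_equiv Φ (σ.trans ε) t
    have h4 : nT Φ ((fun i => t (ε i)) ∘ σ) = nT Φ t := nT_equiv Φ (σ.trans ε) t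
    have h5 := nF_add_nT Φ t
    rw [h3, h4] at h2
    simp only [Fintype.card_sum, Fintype.card_fin] at h5
    exact ht (show nT Φ t = c by omega)

end blockB

/-! ### The Pontryagin products -/

section prod

variable {S Λ : Type} {M G : S → Type} [Fintype Λ]
variable {ι : Type} {K : ι → Type} [∀ i, Field (K i)]

theorem alt_blocks {m m' N : ℕ} (e : Fin m ⊕ Fin m' ≃ Fin N) (f : (Fin m → Lt M G K) → ℂ)
    (v : (Fin m' → Idx K) → ℂ) :
    alt (fun t : Fin N → Lt M G K => alt f (fun i => t (e (Sum.inl i))) *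
      extB (alt v) fun i => t (e (Sum.inr i))) =
    fun t => (m.factorial : ℂ) * ((m'.factorial : ℂ) *
      alt (fun t : Fin N → Lt M G K => f (fun i => t (e (Sum.inl i))) *
        extB v fun i => t (e (Sum.inr i))) t) := by
  rw [altB (Lt M G K) (Fin m') m N e f (extB (alt v))]
  have h := altB (Lt M G K) (Fin m) m' N ((Equiv.sumComm _ _).trans e) (extB v) f
  have h1 : alt (fun t : Fin N → Lt M G K => f (fun i => t (e (Sum.inl i))) *
      extB (alt v) fun i => t (e (Sum.inr i))) =
      alt (fun t : Fin N → Lt M G K => alt (extB v)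
        (fun i => t (((Equiv.sumComm _ _).trans e) (Sum.inl i))) *
        f fun i => t (((Equiv.sumComm _ _).trans e) (Sum.inr i))) := by
    congr 1
    funext t
    rw [extB_alt, mul_comm]
    rfl
  rw [h1, h]
  have h2 : (fun t : Fin N → Lt M G K => extB v
        (fun i => t (((Equiv.sumComm _ _).trans e) (Sum.inl i))) *
        f fun i => t (((Equiv.sumComm _ _).trans e) (Sum.inr i))) =
      fun t : Fin N → Lt M G K => f (fun i => t (e (Sum.inl i))) *
        extB v fun i => t (e (Sum.inr i)) := by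
    funext t
    rw [mul_comm]
    rfl
  rw [h2]

theorem Lc_prod {N m m' : ℕ} {Q : Finset (Fin N)} (ea : {i // i ∈ Q} ≃ Fin m)
    (eb : {i // i ∉ Q} ≃ Fin m') (p : ({i // i ∈ Q} → AL M G) → ℂ)
    (v : ({i // i ∉ Q} → Idx K) → ℂ) :
    Lc Q (fun t w => p t * v w) = fun t : Fin N → Lt M G K =>
      extA (fun s : Fin m → AL M G => p fun i => s (ea i))
        (fun i => t (((Equiv.sumCongr ea.symm eb.symm).trans
          (Equiv.sumCompl fun i => i ∈ Q)) (Sum.inl i))) *
      extB (fun s : Fin m' → Idx K => v fun i => s (eb i))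
        fun i => t (((Equiv.sumCongr ea.symm eb.symm).trans
          (Equiv.sumCompl fun i => i ∈ Q)) (Sum.inr i)) := by
  classical
  funext t
  have hl : ∀ i, ((Equiv.sumCongr ea.symm eb.symm).trans
      (Equiv.sumCompl fun i => i ∈ Q)) (Sum.inl i) = (ea.symm i).1 := fun i => by simp
  have hr : ∀ i, ((Equiv.sumCongr ea.symm eb.symm).trans
      (Equiv.sumCompl fun i => i ∈ Q)) (Sum.inr i) = (eb.symm i).1 := fun i => by simp
  simp only [hl, hr]
  by_cases h : ∀ i, (t i).isLeft = true ↔ i ∈ Q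
  · have hL : ∀ i, (t (ea.symm i).1).isLeft = true := fun i => (h _).2 (ea.symm i).2
    have hR : ∀ i : {i // i ∉ Q}, (t i.1).isRight = true := by
      intro i
      have h1 := fun h2 => i.2 ((h i.1).1 h2)
      cases h3 : t i.1 with
      | inl a => rw [h3] at h1; exact absurd rfl h1
      | inr a => rfl
    have hR' : ∀ i, (t (eb.symm i).1).isRight = true := fun i => hR _
    rw [Lc, dif_pos h, extA, dif_pos hL, extB, dif_pos hR']
    congr 2
    · funext i
      have h1 : ∀ (k : {i // i ∈ Q}) (hk : (t k.1).isLeft = true), k = i →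
          (t i.1).getLeft ((h i.1).2 i.2) = (t k.1).getLeft hk := by
        rintro k hk rfl
        rfl
      exact h1 _ _ (Equiv.symm_apply_apply ea i)
    · funext i
      have h1 : ∀ (k : {i // i ∉ Q}) (hk : (t k.1).isRight = true), k = i →
          (t i.1).getRight (hR i) = (t k.1).getRight hk := by
        rintro k hk rfl
        rfl
      exact h1 _ _ (Equiv.symm_apply_apply eb i)
  · rw [Lc_of_not Q _ t h]
    symm
    push Not at h
    obtain ⟨i, hi⟩ := h
    rcases hi with ⟨hi, hQ⟩ | ⟨hi, hQ⟩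
    · have h2 : ¬ ∀ i, (t (eb.symm i).1).isRight = true := by
        intro h3
        have h4 := h3 (eb ⟨i, hQ⟩)
        rw [Equiv.symm_apply_apply] at h4
        cases h5 : t i with
        | inl a => simp only [h5] at h4; exact absurd h4 (by simp)
        | inr a => rw [h5] at hi; exact absurd hi (by simp)
      rw [extB, dif_neg h2, mul_zero]
    · have h2 : ¬ ∀ i, (t (ea.symm i).1).isLeft = true := by
        intro h3
        have h4 := h3 (ea ⟨i, hQ⟩)
        rw [Equiv.symm_apply_apply] at h4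
        exact hi h4
      rw [extA, dif_neg h2, zero_mul]

/-- the terms -/
theorem term [Finite ι] [∀ i, NumberField (K i)] [∀ i, NumberField.IsCMField (K i)]
    (b : Λ → Crd M G → ℂ) (Φ : ∀ i, Set (K i →+* ℂ)) (hΦ : ∀ i, IsCMType (Φ i)) {n : ℕ}
    (Q : Finset (Fin (2 * n))) {p : ({i // i ∈ Q} → AL M G) → ℂ}
    {v : ({i // i ∉ Q} → Idx K) → ℂ} (hp : p ∈ RTn (perA b) Finset.univ)
    (hp0 : ∀ t, cT t ≠ cF t → p t = 0) (hv : v ∈ RTn (perB (K := K)) Finset.univ)
    (hv0 : ∀ w, nF Φ w ≠ nT Φ w → v w = 0) :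
    alt (Lc Q (fun t w => p t * v w) : (Fin (2 * n) → Lt M G K) → ℂ) ∈
      Submodule.span ℚ {w | IsProdD b Φ n w} := by
  classical
  by_cases h0 : (∃ t, p t ≠ 0) ∧ ∃ w, v w ≠ 0
  · obtain ⟨⟨t0, ht0⟩, w0, hw0⟩ := h0
    have h1 : cT t0 = cF t0 := by
      by_contra h
      exact ht0 (hp0 _ h)
    have h2 : nF Φ w0 = nT Φ w0 := by
      by_contra h
      exact hw0 (hv0 _ h)
    have h3 := cT_add_cF t0
    have h4 := nF_add_nT Φ w0
    have h5 : Fintype.card {i // i ∈ Q} + Fintype.card {i // i ∉ Q} = 2 * n := by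
      rw [← Fintype.card_sum, Fintype.card_congr (Equiv.sumCompl fun i => i ∈ Q),
        Fintype.card_fin]
    have hj : Fintype.card {i // i ∈ Q} = 2 * cT t0 := by omega
    have hc : Fintype.card {i // i ∉ Q} = 2 * nT Φ w0 := by omega
    set j := cT t0 with hjd
    set c := nT Φ w0 with hcd
    have hjc : j + c = n := by omega
    let ea : {i // i ∈ Q} ≃ Fin (2 * j) := Fintype.equivFinOfCardEq hj
    let eb : {i // i ∉ Q} ≃ Fin (2 * c) := Fintype.equivFinOfCardEq hc
    let ε : Fin (2 * c) ≃ Two c := Fintype.equivOfCardEq (by simp [two_mul])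
    let e : Fin (2 * j) ⊕ Fin (2 * c) ≃ Fin (2 * n) :=
      (Equiv.sumCongr ea.symm eb.symm).trans (Equiv.sumCompl fun i => i ∈ Q)
    have hL := Lc_prod ea eb p v
    set p' : (Fin (2 * j) → AL M G) → ℂ := fun s => p fun i => s (ea i) with hp'
    set v' : (Fin (2 * c) → Idx K) → ℂ := fun s => v fun i => s (eb i) with hv'
    have hA := alt_blocks e (extA p' : (Fin (2 * j) → Lt M G K) → ℂ) v'
    have hfin : alt (Lc Q (fun t w => p t * v w) : (Fin (2 * n) → Lt M G K) → ℂ) =
        ((((2 * j).factorial : ℚ) * ((2 * c).factorial : ℚ))⁻¹ : ℚ) •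
        alt (fun t : Fin (2 * n) → Lt M G K =>
          alt (extA p' : (Fin (2 * j) → Lt M G K) → ℂ) (fun i => t (e (Sum.inl i))) *
          extB (alt v') fun i => t (e (Sum.inr i))) := by
      rw [hA, hL]
      funext t
      have h7 : ((2 * j).factorial : ℂ) ≠ 0 := by
        exact_mod_cast Nat.factorial_ne_zero _
      have h8 : ((2 * c).factorial : ℂ) ≠ 0 := by
        exact_mod_cast Nat.factorial_ne_zero _
      simp only [Pi.smul_apply, Algebra.smul_def, map_inv₀, map_mul, map_natCast]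
      field_simp
      rfl
    rw [hfin]
    refine Submodule.smul_mem _ _ (Submodule.subset_span ?_)
    refine ⟨j, c, (Equiv.sumCongr (Equiv.refl _) ε.symm).trans e, alt (extA p'),
      fun t => alt v' fun i => t (ε i), hjc, ⟨alt_extA_mem b (RTnA_equiv b ea p hp), ?_⟩,
      blockB Φ hΦ ε (RTn_equiv eb v hv) ?_, ?_⟩
    · refine alt_extA_type Φ ?_
      intro t ht
      refine hp0 _ ?_
      rw [cT_equiv, cF_equiv]
      exact ht
    · intro w hw
      refine hv0 _ ?_
      rw [nF_equiv, nT_equiv]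
      exact hw
    · congr 1
      funext t
      congr 1
      by_cases h : ∀ i, (t (e (Sum.inr i))).isRight
      · have h' : ∀ i, (t (((Equiv.sumCongr (Equiv.refl _) ε.symm).trans e)
            (Sum.inr i))).isRight := fun i => h (ε.symm i)
        rw [extB, dif_pos h, extB, dif_pos h']
        congr 1
        funext i
        have h1 : ∀ (k : Fin (2 * c)) (hk : (t (e (Sum.inr k))).isRight = true), k = i →
            (t (e (Sum.inr i))).getRight (h i) = (t (e (Sum.inr k))).getRight hk := by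
          rintro k hk rfl
          rfl
        exact h1 _ _ (Equiv.symm_apply_apply ε i)
      · have h' : ¬ ∀ i, (t (((Equiv.sumCongr (Equiv.refl _) ε.symm).trans e)
            (Sum.inr i))).isRight := by
          intro h2
          apply h
          intro i
          have h3 := h2 (ε i)
          simpa using h3
        rw [extB, dif_neg h, extB, dif_neg h']
  · have h1 : (Lc Q (fun t w => p t * v w) : (Fin (2 * n) → Lt M G K) → ℂ) = 0 := by
      funext t
      have h2 : ∀ t w, p t * v w = 0 := by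
        intro t w
        by_contra h3
        exact h0 ⟨⟨t, left_ne_zero_of_mul h3⟩, ⟨w, right_ne_zero_of_mul h3⟩⟩
      simp only [Lc, h2]
      split_ifs <;> rfl
    rw [h1, alt_zero]
    exact Submodule.zero_mem _

end prod

/-! ### The theorem -/

section main

variable {S : Type} {M G : S → Type}
variable {ι : Type} {K : ι → Type} [∀ i, Field (K i)]

theorem nAT_mix {N : ℕ} {Q : Finset (Fin N)} (t : {i // i ∈ Q} → AL M G)
    (w : {i // i ∉ Q} → Idx K) : nAT (mix Q t w) = cT t := by
  have h : {i | ∃ a, mix (G := G) Q t w i = Sum.inl (a, true)} =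
      Subtype.val '' {i | (t i).2 = true} := by
    ext i
    constructor
    · rintro ⟨a, ha⟩
      by_cases hi : i ∈ Q
      · rw [mix, dif_pos hi] at ha
        refine ⟨⟨i, hi⟩, ?_, rfl⟩
        show (t ⟨i, hi⟩).2 = true
        rw [Sum.inl_injective ha]
      · rw [mix, dif_neg hi] at ha
        exact absurd ha (by simp)
    · rintro ⟨i, hi, rfl⟩
      refine ⟨(t i).1, ?_⟩
      have hi' : (t i).2 = true := hi
      rw [mix, dif_pos i.2, ← hi']
  rw [nAT, cT, h, Set.ncard_image_of_injective _ Subtype.val_injective]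

theorem nAF_mix {N : ℕ} {Q : Finset (Fin N)} (t : {i // i ∈ Q} → AL M G)
    (w : {i // i ∉ Q} → Idx K) : nAF (mix Q t w) = cF t := by
  have h : {i | ∃ a, mix (G := G) Q t w i = Sum.inl (a, false)} =
      Subtype.val '' {i | (t i).2 = false} := by
    ext i
    constructor
    · rintro ⟨a, ha⟩
      by_cases hi : i ∈ Q
      · rw [mix, dif_pos hi] at ha
        refine ⟨⟨i, hi⟩, ?_, rfl⟩
        show (t ⟨i, hi⟩).2 = false
        rw [Sum.inl_injective ha]
      · rw [mix, dif_neg hi] at ha
        exact absurd ha (by simp)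
    · rintro ⟨i, hi, rfl⟩
      refine ⟨(t i).1, ?_⟩
      have hi' : (t i).2 = false := hi
      rw [mix, dif_pos i.2, ← hi']
  rw [nAF, cF, h, Set.ncard_image_of_injective _ Subtype.val_injective]

theorem nBT_mix (Φ : ∀ i, Set (K i →+* ℂ)) {N : ℕ} {Q : Finset (Fin N)}
    (t : {i // i ∈ Q} → AL M G) (w : {i // i ∉ Q} → Idx K) : nBT Φ (mix Q t w) = nT Φ w := by
  have h : {i | ∃ q : Idx K, mix (G := G) Q t w i = Sum.inr q ∧ q.2 ∈ Φ q.1} =
      Subtype.val '' {i | (w i).2 ∈ Φ (w i).1} := by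
    ext i
    constructor
    · rintro ⟨a, ha, ha'⟩
      by_cases hi : i ∈ Q
      · rw [mix, dif_pos hi] at ha
        exact absurd ha (by simp)
      · rw [mix, dif_neg hi] at ha
        refine ⟨⟨i, hi⟩, ?_, rfl⟩
        show (w ⟨i, hi⟩).2 ∈ Φ (w ⟨i, hi⟩).1
        rw [Sum.inr_injective ha]
        exact ha'
    · rintro ⟨i, hi, rfl⟩
      refine ⟨w i, ?_, hi⟩
      rw [mix, dif_neg i.2]
  rw [nBT, nT, h, Set.ncard_image_of_injective _ Subtype.val_injective]

theorem nBF_mix (Φ : ∀ i, Set (K i →+* ℂ)) {N : ℕ} {Q : Finset (Fin N)}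
    (t : {i // i ∈ Q} → AL M G) (w : {i // i ∉ Q} → Idx K) : nBF Φ (mix Q t w) = nF Φ w := by
  have h : {i | ∃ q : Idx K, mix (G := G) Q t w i = Sum.inr q ∧ q.2 ∉ Φ q.1} =
      Subtype.val '' {i | (w i).2 ∉ Φ (w i).1} := by
    ext i
    constructor
    · rintro ⟨a, ha, ha'⟩
      by_cases hi : i ∈ Q
      · rw [mix, dif_pos hi] at ha
        exact absurd ha (by simp)
      · rw [mix, dif_neg hi] at ha
        refine ⟨⟨i, hi⟩, ?_, rfl⟩
        show (w ⟨i, hi⟩).2 ∉ Φ (w ⟨i, hi⟩).1
        rw [Sum.inr_injective ha]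
        exact ha'
    · rintro ⟨i, hi, rfl⟩
      refine ⟨w i, ?_, hi⟩
      rw [mix, dif_neg i.2]
  rw [nBF, nF, h, Set.ncard_image_of_injective _ Subtype.val_injective]

end main

end Spl

open Spl

/-- **Row TSPL.** -/
theorem tspl (n : ℕ) (S Λ : Type) [Fintype S] [Fintype Λ] (M G : S → Type)
    [∀ s, Fintype (M s)] [∀ s, Fintype (G s)]
    (b : Module.Basis Λ ℝ (Crd M G → ℂ)) (ι : Type) [Finite ι] (K : ι → Type)
    [∀ i, Field (K i)] [∀ i, NumberField (K i)] [∀ i, NumberField.IsCMField (K i)]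
    (Φ : ∀ i, Set (K i →+* ℂ)) (hΦ : ∀ i, IsCMType (Φ i))
    (u : (Fin (2 * n) → Lt M G K) → ℂ) (hu : u ∈ HX (M := M) (G := G) K b (Fin (2 * n)))
    (h : DB Φ u) :
    u ∈ Submodule.span ℚ {w | IsProdD b Φ n w} := by
  classical
  have := Fintype.ofFinite ι
  have key : alt u ∈ Submodule.span ℚ {w | IsProdD b Φ n w} := by
    rw [sum_Lc u, alt_sum]
    refine Submodule.sum_mem _ fun Q _ => ?_
    have hm := mixr S Λ M G b ι K (Fin (2 * n)) Q u (hxr S Λ M G b ι K _ hu)
    have hqA : QInd (RTn (perA (M := M) (G := G) b) (Finset.univ : Finset {i // i ∈ Q})) :=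
      perqF {i // i ∈ Q} (AL M G) (Λ → ℚ) _ Finset.univ (pera S Λ M G b)
    have hqB : QInd (RTn (perB (K := K)) (Finset.univ : Finset {i // i ∉ Q})) :=
      perqF {i // i ∉ Q} (Idx K) (∀ i, K i) _ Finset.univ (perb ι K)
    have h2 := TT_van2 hqA hqB hm {t | cT t ≠ cF t} {w | nF Φ w ≠ nT Φ w} (by
      intro t ht w
      refine h _ fun h3 => ht ?_
      rw [nAT_mix, nAF_mix] at h3
      exact h3.1) (by
      intro w hw t
      refine h _ fun h3 => hw ?_
      rw [nBT_mix, nBF_mix] at h3
      exact h3.2.symm)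
    refine Submodule.span_induction
      (p := fun g _ => alt (Lc Q g) ∈ Submodule.span ℚ {w | IsProdD b Φ n w}) ?_ ?_ ?_ ?_ h2
    · rintro g ⟨p, hp, v, hv, rfl⟩
      exact term b Φ hΦ Q hp.1 hp.2 hv.1 hv.2
    · simp only [Lc_zero, alt_zero]
      exact Submodule.zero_mem _
    · intro g g' _ _ h h'
      simp only [Lc_add, alt_add]
      exact Submodule.add_mem _ h h'
    · intro c g _ h
      simp only [Lc_smul, alt_smul]
      exact Submodule.smul_mem _ c h
  have h2 := altX S Λ M G b ι K (2 * n) u hu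
  have h3 : u = ((2 * n).factorial : ℚ)⁻¹ • alt u := by
    rw [h2]
    funext t
    have h4 : ((2 * n).factorial : ℂ) ≠ 0 := by
      exact_mod_cast Nat.factorial_ne_zero _
    simp only [Pi.smul_apply, Algebra.smul_def, map_inv₀, map_natCast]
    field_simp
  rw [h3]
  exact Submodule.smul_mem _ _ key

end

end Pool.Agent.TPR
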