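import Pool.Agent.Lib.TPR.Defs
import Pool.Agent.Lib.TPR.Tt

/-!
# Tate for `A × B`, row TTOR: the number of letters of type `(1,0)` on `B` (helper64)
-/

set_option autoImplicit false

open scoped ComplexConjugate Matrix
open Complex Pool.Agent.HCM Pool.Agent.GG

namespace Pool.Agent.TPR

noncomputable section

namespace TTORx

section letter

variable {S : Type} {M G : S → Type} {ι : Type} {K : ι → Type} [∀ i, Field (K i)]
  {E : Type} [Field E] [NumberField E] [IsGalois ℚ E]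

/-- one letter of `B` -/
theorem idx_prod [∀ i, NumberField (K i)] (Φ : ∀ i, Set (K i →+* ℂ)) (j : ∀ i, K i →+* E)
    (τ₀ : E →+* ℂ) (q : Idx K) :
    ∃ e : (E ≃ₐ[ℚ] E) → ℕ, (∀ (x : E) (z : ∀ i, K i), IsReflexNorm Φ j τ₀ x z →
      q.2 (z q.1) = ∏ g : E ≃ₐ[ℚ] E, τ₀ (g x) ^ e g) ∧ (q.2 ∈ Φ q.1 → e 1 = 1) ∧
      (q.2 ∉ Φ q.1 → e 1 = 0) := by
  classical
  obtain ⟨h, hh⟩ := exists_aut_comp (j q.1) τ₀ q.2
  refine ⟨fun g => if τ₀.comp (((g⁻¹ * h : E ≃ₐ[ℚ] E) : E →+* E).comp (j q.1)) ∈ Φ q.1 then 1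
    else 0, ?_, ?_, ?_⟩
  · intro x z hz
    have h2 : q.2 (z q.1) = τ₀ (h (j q.1 (z q.1))) := by
      conv_lhs => rw [hh]
      rfl
    rw [h2, hz q.1, map_prod, map_prod]
    refine Fintype.prod_equiv (Equiv.mk (fun g => h * g⁻¹) (fun g => g⁻¹ * h) ?_ ?_) _ _ ?_
    · intro g
      simp
    · intro g
      simp
    · intro g
      simp only [Equiv.coe_fn_mk]
      have h3 : (h * g⁻¹)⁻¹ * h = g := by group
      by_cases hc : τ₀.comp (((g : E ≃ₐ[ℚ] E) : E →+* E).comp (j q.1)) ∈ Φ q.1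
      · rw [if_pos hc, if_pos (by rw [h3]; exact hc), pow_one]
        rfl
      · rw [if_neg hc, if_neg (by rw [h3]; exact hc), pow_zero, map_one, map_one]
  · intro hq
    have h3 : ((1 : E ≃ₐ[ℚ] E)⁻¹ * h : E ≃ₐ[ℚ] E) = h := by group
    exact if_pos (by rw [h3, ← hh]; exact hq)
  · intro hq
    have h3 : ((1 : E ≃ₐ[ℚ] E)⁻¹ * h : E ≃ₐ[ℚ] E) = h := by group
    exact if_neg (by rw [h3, ← hh]; exact hq)

/-- the factor by which the endomorphism `(r, z)` of `A × B` multiplies a letter -/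
def lval (r : ℚ) (z : ∀ i, K i) (y : Lt M G K) : ℂ :=
  Sum.elim (fun _ => (r : ℂ)) (fun q => q.2 (z q.1)) y

open Classical in
/-- the exponent of a letter at `g = 1` -/
def ez (Φ : ∀ i, Set (K i →+* ℂ)) (y : Lt M G K) : ℕ :=
  Sum.elim (fun _ => 1) (fun q => if q.2 ∈ Φ q.1 then 2 else 0) y

/-- one letter of `A × B` -/
theorem lt_prod [∀ i, NumberField (K i)] (Φ : ∀ i, Set (K i →+* ℂ)) (j : ∀ i, K i →+* E)
    (τ₀ : E →+* ℂ) (y : Lt M G K) :
    ∃ e : (E ≃ₐ[ℚ] E) → ℕ, (∀ (x : E) (z : ∀ i, K i), IsReflexNorm Φ j τ₀ x z →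
      lval (Algebra.norm ℚ x) (fun i => z i ^ 2) y = ∏ g : E ≃ₐ[ℚ] E, τ₀ (g x) ^ e g) ∧
      e 1 = ez Φ y := by
  classical
  rcases y with a | q
  · refine ⟨fun _ => 1, fun x z _ => ?_, rfl⟩
    change ((Algebra.norm ℚ x : ℚ) : ℂ) = _
    rw [Tt.norm_eq τ₀]
    simp only [pow_one]
  · obtain ⟨e, h1, h2, h3⟩ := idx_prod Φ j τ₀ q
    refine ⟨fun g => 2 * e g, fun x z hz => ?_, ?_⟩
    · change q.2 (z q.1 ^ 2) = _
      rw [map_pow, h1 x z hz, ← Finset.prod_pow]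
      refine Finset.prod_congr rfl fun g _ => ?_
      rw [← pow_mul, Nat.mul_comm]
    · change 2 * e 1 = if q.2 ∈ Φ q.1 then 2 else 0
      split_ifs with hq
      · rw [h2 hq]
      · rw [h3 hq]

/-- a word on which the reflex norms act by a power of the norm -/
theorem word [∀ i, NumberField (K i)] {T : Type} [Fintype T] (Φ : ∀ i, Set (K i →+* ℂ))
    (j : ∀ i, K i →+* E) (τ₀ : E →+* ℂ) (N m : ℕ) (hN : 0 < N) (t : T → Lt M G K)
    (h : ∀ y : E, IsIntegral ℤ y → ∀ z : ∀ i, K i, IsReflexNorm Φ j τ₀ (1 + N * y) z →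
      ∏ a, lval (Algebra.norm ℚ (1 + N * y)) (fun i => z i ^ 2) (t a) =
        ((Algebra.norm ℚ (1 + N * y) : ℚ) : ℂ) ^ m) :
    ∑ a, ez Φ (t a) = m := by
  classical
  have h1 := fun a => lt_prod Φ j τ₀ (t a)
  choose e he1 he2 using h1
  have h2 : (fun g => ∑ a, e a g) = fun _ => m := by
    apply exp_eq τ₀ N hN
    intro y hy
    obtain ⟨z, hz⟩ := exists_reflexNorm Φ j τ₀ (1 + N * y)
    have h3 := h y hy z hz
    rw [Finset.prod_congr rfl fun a _ => he1 a _ z hz, Finset.prod_comm, Tt.norm_eq τ₀,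
      ← Finset.prod_pow] at h3
    rw [← h3]
    refine Finset.prod_congr rfl fun g _ => ?_
    rw [Finset.prod_pow_eq_pow_sum]
  have h3 := congrFun h2 1
  rw [← h3]
  exact Finset.sum_congr rfl fun a _ => (he2 a).symm

open Classical in
theorem sum_ez {T : Type} [Fintype T] (Φ : ∀ i, Set (K i →+* ℂ)) (t : T → Lt M G K) :
    ∑ a, ez Φ (t a) = 2 * nBT Φ t + (nAT t + nAF t) := by
  have h1 : nAT t = ∑ a, if ∃ y, t a = Sum.inl (y, true) then 1 else 0 := by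
    rw [nAT, Set.ncard_eq_toFinset_card', Finset.sum_boole, Nat.cast_id]
    congr 1
    ext a
    simp
  have h2 : nAF t = ∑ a, if ∃ y, t a = Sum.inl (y, false) then 1 else 0 := by
    rw [nAF, Set.ncard_eq_toFinset_card', Finset.sum_boole, Nat.cast_id]
    congr 1
    ext a
    simp
  have h3 : nBT Φ t = ∑ a, if ∃ q : Idx K, t a = Sum.inr q ∧ q.2 ∈ Φ q.1 then 1 else 0 := by
    rw [nBT, Set.ncard_eq_toFinset_card', Finset.sum_boole, Nat.cast_id]
    congr 1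
    ext a
    simp
  rw [h1, h2, h3, Finset.mul_sum, ← Finset.sum_add_distrib, ← Finset.sum_add_distrib]
  refine Finset.sum_congr rfl fun a _ => ?_
  rcases ht : t a with ⟨y, c⟩ | q
  · cases c <;> simp [ez]
  · by_cases hq : q.2 ∈ Φ q.1 <;> simp [ez, hq]

end letter

end TTORx

/-- Row TTOR. -/
theorem ttor {S : Type} {M G : S → Type} [Fintype S] [∀ s, Fintype (M s)]
    [∀ s, Fintype (G s)] {ι : Type} {K : ι → Type} [∀ i, Field (K i)]
    [∀ i, NumberField (K i)] {n : ℕ} {E : Type} [Field E] [NumberField E] [IsGalois ℚ E]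
    (Φ : ∀ i, Set (K i →+* ℂ)) (j : ∀ i, K i →+* E) (τ₀ : E →+* ℂ) (N : ℕ) (hN : 0 < N)
    (u : (Fin (2 * n) → Lt M G K) → ℂ)
    (hu : ∀ y : E, IsIntegral ℤ y → ∀ z : ∀ i, K i, IsReflexNorm Φ j τ₀ (1 + N * y) z →
      mulF (Algebra.norm ℚ (1 + N * y)) (fun i => z i ^ 2) u =
        (Algebra.norm ℚ (1 + N * y)) ^ (2 * n) • u) :
    ∀ t, u t ≠ 0 → 2 * nBT Φ t + (nAT t + nAF t) = 2 * n := by
  intro t ht
  rw [← TTORx.sum_ez]
  refine TTORx.word Φ j τ₀ N (2 * n) hN t fun y hy z hz => ?_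
  have h1 := congrFun (hu y hy z hz) t
  rw [mulF_apply, Pi.smul_apply, Rat.smul_def] at h1
  have h2 := mul_right_cancel₀ ht h1
  rw [Rat.cast_pow] at h2
  exact h2

end

end Pool.Agent.TPR
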