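import Pool.Agent.Lib.TPR.Fin0
import Pool.Agent.Lib.TPR.Pmem
import Pool.Agent.Lib.TPR.TTOR
import Pool.Agent.Lib.TPR.Endo
import Pool.Agent.Lib.TPR.Spl

/-!
# TateProducts: the theorem, from the rows TBAL, TKILL, TDBP (helper79)
-/

set_option autoImplicit false

open scoped ComplexConjugate Matrix TensorProduct
open Complex Pool.Agent.HCM Pool.Agent.RAT Pool.Agent.GG

namespace Pool.Agent.TPR

noncomputable section

namespace TFINx

theorem tate_of_rows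
    (hBAL : ∀ (S Λ : Type) [Fintype S] [Fintype Λ] (M G : S → Type) [∀ s, Fintype (M s)]
      [∀ s, Fintype (G s)] (b : Module.Basis Λ ℝ (Crd M G → ℂ)) (ι : Type) [Finite ι]
      (K : ι → Type) [∀ i, Field (K i)] [∀ i, NumberField (K i)] (n : ℕ),
      ∀ u ∈ HX K b (Fin (2 * n)),
      (∀ X ∈ hodgeLie b, ∀ Z : Matrix (AL M G) (AL M G) ℂ, IsRep b X Z → lieF Z u = 0) →
        ∀ t, u t ≠ 0 → nAT t = nAF t)
    (hKILL : ∀ (S Λ : Type) [Fintype S] [Fintype Λ] (M G : S → Type) [∀ s, Fintype (M s)]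
      [∀ s, Fintype (G s)] (b : Module.Basis Λ ℝ (Crd M G → ℂ)) (ι : Type) [Finite ι]
      (K : ι → Type) [∀ i, Field (K i)] [∀ i, NumberField (K i)] (n : ℕ),
      ∀ u ∈ HX K b (Fin (2 * n)), (∀ t, u t ≠ 0 → nAT t = nAF t) →
      ∀ X ∈ hodgeLie b, ∀ Z : Matrix (AL M G) (AL M G) ℂ, IsRep b X Z → lieF Z u = 0)
    (hCNT : ∀ (S : Type) (M G : S → Type) (ι : Type) (K : ι → Type) [∀ i, Field (K i)]
      (Φ : ∀ i, Set (K i →+* ℂ)) (n : ℕ) (t : Fin (2 * n) → Lt M G K),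
      nAT t + nAF t + nBT Φ t + nBF Φ t = 2 * n)
    (hDB : ∀ (S Λ : Type) [Fintype S] [Fintype Λ] (M G : S → Type) [∀ s, Fintype (M s)]
      [∀ s, Fintype (G s)] (b : Λ → Crd M G → ℂ) (ι : Type) [Finite ι] (K : ι → Type)
      [∀ i, Field (K i)] (Φ : ∀ i, Set (K i →+* ℂ)) (n : ℕ), ∀ w, IsProdD b Φ n w → DB Φ w)
    (p : ℕ) [Fact p.Prime] (n : ℕ) (S Λ : Type) [Fintype S] [Fintype Λ] (M G : S → Type)
    [∀ s, Fintype (M s)] [∀ s, Fintype (G s)] (b : Module.Basis Λ ℝ (Crd M G → ℂ)) (ι : Type)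
    [Finite ι] (K : ι → Type) [∀ i, Field (K i)] [∀ i, NumberField (K i)]
    [∀ i, NumberField.IsCMField (K i)] (Φ : ∀ i, Set (K i →+* ℂ)) (hΦ : ∀ i, IsCMType (Φ i))
    (E : Type) [Field E] [NumberField E] [IsGalois ℚ E] (j : ∀ i, K i →+* E) (τ₀ : E →+* ℂ)
    (c : HCp p K b n) :
    IsTateX p b Φ j τ₀ c ↔
      c ∈ Submodule.span ℚ_[p] (RatP p (IsProdD b Φ n) : Set (HCp p K b n)) :=
  tate_iff p b Φ j τ₀ (hBAL S Λ M G b ι K n) (hKILL S Λ M G b ι K n)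
    (fun N hN u hu => ttor Φ j τ₀ N hN u hu) (hCNT S M G ι K Φ n) (IsProdD b Φ n)
    (prodD_mem b Φ n) (fun u hu h => tspl n S Λ M G b ι K Φ hΦ u hu h)
    (hDB S Λ M G b ι K Φ n) (fun _ h x z hz => tendo h x z hz) c

end TFINx

end

end Pool.Agent.TPR
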